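import Pool.Agent.H535.LB.Test

set_option autoImplicit false

/-!
# The allowed classes modulo `q`
-/

open Finset

namespace Pool.Agent.H535.LB

open Pool.Agent.Helper112 Pool.Agent.W110.HV

/-- `n` avoids the class of `b p` modulo all primes `p` dividing `q` -/
def Av (b : ℕ → ℕ) (q : ℕ) (n : ℤ) : Prop := ∀ p ∈ q.primeFactors, ¬ (p : ℤ) ∣ n - b p

/-- the allowed classes -/
noncomputable def Cls (b : ℕ → ℕ) (q : ℕ) : Finset ℕ := by
  classical exact (range q).filter (fun a => Av b q a)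

theorem card_Cls (b : ℕ → ℕ) (q : ℕ) (hq : 1 ≤ q) : (Cls b q).card = Nat.totient q := by
  classical
  obtain ⟨c, hc⟩ : ∃ c : ℕ, ∀ p ∈ q.primeFactors, c ≡ b p [MOD p] := by
    have h := Nat.chineseRemainderOfFinset b id q.primeFactors
      (fun p hp => (Nat.prime_of_mem_primeFactors hp).ne_zero)
      (fun p hp q hq hpq => (Nat.coprime_primes (Nat.prime_of_mem_primeFactors hp)
        (Nat.prime_of_mem_primeFactors hq)).2 hpq)
    exact ⟨h.1, fun p hp => h.2 p hp⟩
  set c' := q - c % q with hc'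
  have hlt : c % q < q := Nat.mod_lt _ hq
  have hdiv : q ∣ c + c' := by
    refine ⟨c / q + 1, ?_⟩
    have := Nat.div_add_mod c q
    rw [mul_add, mul_one]
    omega
  have key : ∀ A p : ℕ, p ∈ q.primeFactors → (p ∣ A + c' ↔ (p : ℤ) ∣ (A : ℤ) - b p) := by
    intro A p hp
    have hpq := Nat.dvd_of_mem_primeFactors hp
    have h0 : p ∣ c + c' := hpq.trans hdiv
    have h1 : (p : ℤ) ∣ (c : ℤ) - b p := by
      have := (Nat.modEq_iff_dvd.1 (hc p hp).symm)
      exact this
    have h2 : (p : ℤ) ∣ (c : ℤ) + c' := by exact_mod_cast h0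
    have e1 : ((A + c' : ℕ) : ℤ) = ((A : ℤ) - b p) + ((c : ℤ) + c') - ((c : ℤ) - b p) := by
      push_cast
      ring
    rw [← Int.natCast_dvd_natCast, e1]
    constructor
    · intro h
      have h3 := dvd_sub (dvd_add h h1) h2
      have e2 : ((A : ℤ) - b p) + ((c : ℤ) + c') - ((c : ℤ) - b p) + ((c : ℤ) - b p) - ((c : ℤ) + c') =
        (A : ℤ) - b p := by ring
      rwa [e2] at h3
    · intro h
      exact dvd_sub (dvd_add h h2) h1
  rw [← Nat.filter_coprime_Ico_eq_totient q c']
  unfold Cls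
  apply card_nbij' (fun A => A + c') (fun x => x - c')
  · intro A hA
    simp only [coe_filter, mem_range, Set.mem_ofPred_eq] at hA
    simp only [coe_filter, mem_Ico, Set.mem_ofPred_eq]
    refine ⟨by omega, ?_⟩
    by_contra hnc
    obtain ⟨p, hp, h1, h2⟩ := Nat.Prime.not_coprime_iff_dvd.1 hnc
    have hpf : p ∈ q.primeFactors := Nat.mem_primeFactors.2 ⟨hp, h1, by omega⟩
    exact hA.2 p hpf ((key A p hpf).1 h2)
  · intro x hx
    simp only [coe_filter, mem_Ico, Set.mem_ofPred_eq] at hx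
    simp only [coe_filter, mem_range, Set.mem_ofPred_eq]
    refine ⟨by omega, fun p hp h => ?_⟩
    have h2 := (key (x - c') p hp).2 h
    rw [Nat.sub_add_cancel hx.1.1] at h2
    exact Nat.Prime.not_coprime_iff_dvd.2 ⟨p, Nat.prime_of_mem_primeFactors hp,
      Nat.dvd_of_mem_primeFactors hp, h2⟩ hx.2
  · intro A _
    simp
  · intro x hx
    simp only [coe_filter, mem_Ico, Set.mem_ofPred_eq] at hx
    exact Nat.sub_add_cancel hx.1.1

theorem two_pow_le (q : ℕ) (hq : q ≠ 0) : q.primeFactors.powerset.card ≤ q.divisors.card := by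
  apply card_le_card_of_injOn (fun t => ∏ p ∈ t, p)
  · intro t ht
    rw [mem_coe, mem_powerset] at ht
    rw [mem_coe, Nat.mem_divisors]
    exact ⟨(prod_dvd_prod_of_subset _ _ _ ht).trans (Nat.prod_primeFactors_dvd q), hq⟩
  · intro s hs t ht h
    rw [mem_coe, mem_powerset] at hs ht
    have h1 := Nat.primeFactors_prod (s := s) (fun p hp => Nat.prime_of_mem_primeFactors (hs hp))
    have h2 := Nat.primeFactors_prod (s := t) (fun p hp => Nat.prime_of_mem_primeFactors (ht hp))
    dsimp only at h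
    rw [← h1, ← h2, h]

/-- a sum over a residue class -/
theorem class_sum (N r : ℕ) (hr : 0 < r) (c : ℤ) (g : ℤ → ℂ) (Z : ℝ)
    (hg : ∀ α : ℝ, ‖ES 1 N g α‖ ≤ Z) :
    ‖∑ n ∈ Icc (1 : ℤ) N, if (r : ℤ) ∣ n - c then g n else 0‖ ≤ Z := by
  have hr0 : (r : ℂ) ≠ 0 := by exact_mod_cast hr.ne'
  have hrr : (0 : ℝ) < r := by exact_mod_cast hr
  have e1 : ∑ n ∈ Icc (1 : ℤ) N, (if (r : ℤ) ∣ n - c then g n else 0) =
      (1 / (r : ℂ)) * ∑ t ∈ range r, ee (-((c : ℝ) * ((t : ℝ) / r))) * ES 1 N g ((t : ℝ) / r) := by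
    unfold ES
    simp_rw [mul_sum]
    rw [sum_comm]
    refine sum_congr rfl fun n _ => ?_
    have h := orth r hr (n - c)
    have e2 : ∀ t ∈ range r, 1 / (r : ℂ) * (ee (-((c : ℝ) * ((t : ℝ) / r))) *
        (g n * ee (n * ((t : ℝ) / r)))) = 1 / (r : ℂ) * g n * ee (((n - c : ℤ) : ℝ) * ((t : ℝ) / r)) := by
      intro t _
      have e3 : ee (((n - c : ℤ) : ℝ) * ((t : ℝ) / r)) =
          ee (-((c : ℝ) * ((t : ℝ) / r))) * ee (n * ((t : ℝ) / r)) := by
        rw [← ls_ee_add]
        congr 1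
        push_cast
        ring
      rw [e3]
      ring
    rw [sum_congr rfl e2, ← mul_sum, h]
    split_ifs
    · field_simp
    · ring
  rw [e1, norm_mul, norm_div, norm_one, Complex.norm_natCast]
  calc 1 / (r : ℝ) * ‖∑ t ∈ range r, ee (-((c : ℝ) * ((t : ℝ) / r))) * ES 1 N g ((t : ℝ) / r)‖
      ≤ 1 / (r : ℝ) * ∑ t ∈ range r, Z := by
        apply mul_le_mul_of_nonneg_left _ (by positivity)
        refine (norm_sum_le _ _).trans (sum_le_sum fun t _ => ?_)
        rw [norm_mul, ls_norm_ee, one_mul]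
        exact hg _
    _ = Z := by
        rw [sum_const, card_range, nsmul_eq_mul]
        field_simp

open Classical in
/-- the sum over the allowed classes -/
theorem cls_sum {b : ℕ → ℕ} {B : ℕ → ℤ} (hB : Shift b B) (N q : ℕ) (hq : q ≠ 0) (g : ℤ → ℂ) (Z : ℝ)
    (hg : ∀ α : ℝ, ‖ES 1 N g α‖ ≤ Z) :
    ‖∑ n ∈ Icc (1 : ℤ) N, if Av b q n then g n else 0‖ ≤ q.divisors.card * Z := by
  have e1 : ∀ n : ℤ, (if Av b q n then g n else 0) = ∑ t ∈ q.primeFactors.powerset,
      (-1) ^ t.card * (if ((∏ p ∈ t, p : ℕ) : ℤ) ∣ n - B (∏ p ∈ t, p) then g n else 0) := by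
    intro n
    have h1 : (if Av b q n then (1 : ℂ) else 0) =
        ∏ p ∈ q.primeFactors, (1 + -(if (p : ℤ) ∣ n - b p then (1 : ℂ) else 0)) := by
      unfold Av
      split_ifs with h
      · symm
        apply prod_eq_one
        intro p hp
        rw [if_neg (h p hp)]
        ring
      · push Not at h
        obtain ⟨p, hp, h2⟩ := h
        symm
        apply prod_eq_zero hp
        rw [if_pos h2]
        ring
    have h2 : (if Av b q n then g n else 0) = (if Av b q n then (1 : ℂ) else 0) * g n := by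
      split_ifs <;> ring
    rw [h2, h1, prod_one_add, sum_mul]
    refine sum_congr rfl fun t ht => ?_
    rw [mem_powerset] at ht
    have hprime : ∀ p ∈ t, p.Prime := fun p hp => Nat.prime_of_mem_primeFactors (ht hp)
    have hne : (∏ p ∈ t, p) ≠ 0 := prod_ne_zero_iff.2 fun p hp => (hprime p hp).ne_zero
    have hpf := Nat.primeFactors_prod (s := t) hprime
    have h3 : (((∏ p ∈ t, p : ℕ) : ℤ) ∣ n - B (∏ p ∈ t, p)) ↔ ∀ p ∈ t, (p : ℤ) ∣ n - b p := by
      constructor
      · intro h p hp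
        have h4 : (p : ℤ) ∣ ((∏ p ∈ t, p : ℕ) : ℤ) := by exact_mod_cast dvd_prod_of_mem _ hp
        have h5 := hB _ hne p (by rw [hpf]; exact hp)
        have h6 := dvd_add (h4.trans h) h5
        have e : n - B (∏ p ∈ t, p) + (B (∏ p ∈ t, p) - b p) = n - b p := by ring
        rwa [e] at h6
      · intro h
        push_cast
        apply Finset.prod_dvd_of_coprime
        · intro p hp p' hp' hpp
          have : Nat.Coprime p p' := (Nat.coprime_primes (hprime p hp) (hprime p' hp')).2 hpp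
          exact Nat.isCoprime_iff_coprime.2 this
        · intro p hp
          have h5 := hB _ hne p (by rw [hpf]; exact hp)
          have h6 := dvd_sub (h p hp) h5
          have e : n - b p - (B (∏ p ∈ t, p) - b p) = n - B (∏ p ∈ t, p) := by ring
          rwa [e] at h6
    rw [prod_neg]
    split_ifs with h4
    · rw [h3] at h4
      rw [prod_eq_one (fun p hp => if_pos (h4 p hp))]
      ring
    · rw [h3] at h4
      push Not at h4
      obtain ⟨p, hp, h5⟩ := h4
      rw [prod_eq_zero hp (if_neg h5)]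
      ring
  simp_rw [e1]
  rw [sum_comm]
  simp_rw [← mul_sum]
  have hZ : 0 ≤ Z := (norm_nonneg _).trans (hg 0)
  calc ‖∑ t ∈ q.primeFactors.powerset, (-1) ^ t.card * ∑ n ∈ Icc (1 : ℤ) N,
        (if ((∏ p ∈ t, p : ℕ) : ℤ) ∣ n - B (∏ p ∈ t, p) then g n else 0)‖
      ≤ ∑ t ∈ q.primeFactors.powerset, Z := by
        refine (norm_sum_le _ _).trans (sum_le_sum fun t ht => ?_)
        rw [norm_mul, norm_pow, norm_neg, norm_one, one_pow, one_mul]
        rw [mem_powerset] at ht
        apply class_sum N _ _ _ g Z hg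
        exact prod_pos fun p hp => (Nat.prime_of_mem_primeFactors (ht hp)).pos
    _ = (q.primeFactors.powerset.card : ℝ) * Z := by rw [sum_const, nsmul_eq_mul]
    _ ≤ _ := by
        apply mul_le_mul_of_nonneg_right _ hZ
        exact_mod_cast two_pow_le q hq

end Pool.Agent.H535.LB
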