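import Mathlib

set_option autoImplicit false

/-!
# Squarefree numbers in dyadic intervals
-/

open Finset

namespace Pool.Agent.H535.LB

theorem inv_sq_sum (M : ℕ) (hM : 2 ≤ M) : ∑ m ∈ Icc 2 M, 1 / (m : ℝ) ^ 2 ≤ 3 / 4 - 1 / (M : ℝ) := by
  induction M, hM using Nat.le_induction with
  | base =>
    rw [Icc_self, sum_singleton]
    norm_num
  | succ n hn ih =>
    rw [sum_Icc_succ_top (by omega)]
    have hn0 : (0 : ℝ) < n := by exact_mod_cast (by omega : 0 < n)
    have h1 : 1 / ((n + 1 : ℕ) : ℝ) ^ 2 ≤ 1 / n - 1 / ((n + 1 : ℕ) : ℝ) := by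
      push_cast
      rw [div_sub_div _ _ (by positivity) (by positivity), div_le_div_iff₀ (by positivity) (by positivity)]
      nlinarith
    linarith

theorem mult_count (K r : ℕ) (hr : 0 < r) :
    (((Ioc K (2 * K)).filter (fun q => r ∣ q)).card : ℝ) ≤ K / r + 1 := by
  have h1 : ((Ioc 0 (2 * K)).filter (fun q => r ∣ q)).card = 2 * K / r := Nat.Ioc_filter_dvd_card_eq_div _ _
  have h2 : ((Ioc 0 K).filter (fun q => r ∣ q)).card = K / r := Nat.Ioc_filter_dvd_card_eq_div _ _
  have h3 : (Ioc 0 (2 * K)).filter (fun q => r ∣ q) =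
      (Ioc 0 K).filter (fun q => r ∣ q) ∪ (Ioc K (2 * K)).filter (fun q => r ∣ q) := by
    rw [← filter_union, Ioc_union_Ioc_eq_Ioc (by omega) (by omega)]
  have h4 : Disjoint ((Ioc 0 K).filter (fun q => r ∣ q)) ((Ioc K (2 * K)).filter (fun q => r ∣ q)) := by
    rw [disjoint_left]
    intro q hq hq'
    rw [mem_filter, mem_Ioc] at hq hq'
    omega
  have h5 := card_union_of_disjoint h4
  rw [← h3, h1, h2] at h5
  have h6 : ((2 * K / r : ℕ) : ℝ) = (K / r : ℕ) + (((Ioc K (2 * K)).filter (fun q => r ∣ q)).card : ℝ) := by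
    exact_mod_cast h5
  have hr0 : (0 : ℝ) < r := by exact_mod_cast hr
  have h7 : ((2 * K / r : ℕ) : ℝ) ≤ 2 * K / r := by
    have := Nat.cast_div_le (α := ℝ) (m := 2 * K) (n := r)
    push_cast at this
    exact this
  have h8 : (K : ℝ) / r < (K / r : ℕ) + 1 := by
    rw [div_lt_iff₀ hr0]
    have := Nat.lt_mul_div_succ K hr
    have h9 : (K : ℝ) < r * ((K / r : ℕ) + 1) := by exact_mod_cast this
    linarith
  have h9 : (2 : ℝ) * K / r = K / r + K / r := by ring
  linarith

/-- the number of the squarefree integers in `(K, 2K]` -/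
theorem sqf_count (K : ℕ) : (K : ℝ) / 4 - Real.sqrt (2 * K) ≤
    (((Ioc K (2 * K)).filter Squarefree).card : ℝ) := by
  rcases Nat.lt_or_ge (Nat.sqrt (2 * K)) 2 with hs | hs
  · have hK : 2 * K < 4 := by
      have := Nat.lt_succ_sqrt (2 * K)
      have h2 : Nat.sqrt (2 * K) ≤ 1 := by omega
      have h3 : (Nat.sqrt (2 * K)).succ * (Nat.sqrt (2 * K)).succ ≤ 2 * 2 :=
        Nat.mul_le_mul (by omega) (by omega)
      omega
    have h1 : (K : ℝ) / 4 - Real.sqrt (2 * K) ≤ 0 := by
      have hK1 : (K : ℝ) ≤ 1 := by exact_mod_cast (by omega : K ≤ 1)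
      have hK0 : (0 : ℝ) ≤ K := by positivity
      have h9 : (K : ℝ) / 4 ≤ Real.sqrt (2 * K) := by
        apply Real.le_sqrt_of_sq_le
        nlinarith
      linarith
    exact h1.trans (by positivity)
  set M := Nat.sqrt (2 * K) with hM
  have h1 : (Ioc K (2 * K)).filter (fun q => ¬ Squarefree q) ⊆
      (Icc 2 M).biUnion (fun m => (Ioc K (2 * K)).filter (fun q => m ^ 2 ∣ q)) := by
    intro q hq
    rw [mem_filter, mem_Ioc] at hq
    rw [mem_biUnion]
    have h2 := hq.2
    rw [Nat.squarefree_iff_prime_squarefree] at h2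
    push Not at h2
    obtain ⟨p, hp, hpq⟩ := h2
    refine ⟨p, ?_, ?_⟩
    · rw [mem_Icc]
      refine ⟨hp.two_le, ?_⟩
      rw [hM, Nat.le_sqrt]
      exact (Nat.le_of_dvd (by omega) hpq).trans hq.1.2
    · rw [mem_filter, mem_Ioc, sq]
      exact ⟨hq.1, hpq⟩
  have h2 : (((Ioc K (2 * K)).filter (fun q => ¬ Squarefree q)).card : ℝ) ≤ 3 / 4 * K + Real.sqrt (2 * K) := by
    calc (((Ioc K (2 * K)).filter (fun q => ¬ Squarefree q)).card : ℝ)
        ≤ (((Icc 2 M).biUnion (fun m => (Ioc K (2 * K)).filter (fun q => m ^ 2 ∣ q))).card : ℝ) := by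
          exact_mod_cast card_le_card h1
      _ ≤ ∑ m ∈ Icc 2 M, (((Ioc K (2 * K)).filter (fun q => m ^ 2 ∣ q)).card : ℝ) := by
          exact_mod_cast card_biUnion_le
      _ ≤ ∑ m ∈ Icc 2 M, (K * (1 / (m : ℝ) ^ 2) + 1) := by
          refine sum_le_sum fun m hm => ?_
          rw [mem_Icc] at hm
          have hm0 : 0 < m ^ 2 := by
            have : 0 < m := by omega
            positivity
          have := mult_count K (m ^ 2) hm0
          push_cast at this
          rw [mul_one_div]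
          exact this
      _ ≤ 3 / 4 * K + Real.sqrt (2 * K) := by
          rw [sum_add_distrib, ← mul_sum, sum_const, Nat.card_Icc, nsmul_eq_mul, mul_one]
          have h3 := inv_sq_sum M hs
          have h4 : (0 : ℝ) ≤ 1 / M := by positivity
          have h5 : (K : ℝ) * ∑ m ∈ Icc 2 M, 1 / (m : ℝ) ^ 2 ≤ K * (3 / 4) :=
            mul_le_mul_of_nonneg_left (by linarith) (by positivity)
          have h6 : ((M + 1 - 2 : ℕ) : ℝ) ≤ M := by exact_mod_cast (by omega)
          have h7 : (M : ℝ) ≤ Real.sqrt (2 * K) := by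
            apply Real.le_sqrt_of_sq_le
            have := Nat.sqrt_le' (2 * K)
            exact_mod_cast this
          linarith
  have h3 : (((Ioc K (2 * K)).filter Squarefree).card : ℝ) +
      (((Ioc K (2 * K)).filter (fun q => ¬ Squarefree q)).card : ℝ) = K := by
    have := card_filter_add_card_filter_not (s := Ioc K (2 * K)) (p := Squarefree)
    rw [Nat.card_Ioc] at this
    have h4 : 2 * K - K = K := by omega
    rw [h4] at this
    exact_mod_cast this
  linarith

end Pool.Agent.H535.LB
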