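import Pool.Agent.H535.LB.Sharp

set_option autoImplicit false

/-!
# Almost all moduli
-/

open Finset

namespace Pool.Agent.H535.LB

open Pool.Agent.Helper112 Pool.Agent.W110.HV

/-- the parameters -/
theorem pars_large (δ : ℝ) (hδ : 0 < δ) : ∃ N0 : ℕ, ∀ N : ℕ, N0 ≤ N →
    1 ≤ N ∧ (∀ n : ℕ, 1 ≤ n → n ≤ 3 * N → (n.divisors.card : ℝ) ≤ (N : ℝ) ^ (δ / 32)) ∧
    2 + 2 * Real.log N ≤ (N : ℝ) ^ (δ / 32) ∧ 1000000 ≤ (N : ℝ) ^ (δ / 32) ∧
    ∀ K : ℕ, (N : ℝ) ^ (1 / 2 + δ) ≤ K → K ≤ N →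
      1 ≤ ⌊(N : ℝ) ^ (1 + δ / 4) / K⌋₊ ∧ 1 ≤ ⌊(N : ℝ) ^ (1 / 2 - δ / 4)⌋₊ ∧
      ⌊(N : ℝ) ^ (1 / 2 - δ / 4)⌋₊ ≤ N ∧
      Real.log K - 1 / 2 * Real.log N - 17 / 32 * δ * Real.log N + 1 ≤
        H343.LL ⌊(N : ℝ) ^ (1 + δ / 4) / K⌋₊ ⌊(N : ℝ) ^ (1 / 2 - δ / 4)⌋₊ ∧
      1 ≤ H343.LL ⌊(N : ℝ) ^ (1 + δ / 4) / K⌋₊ ⌊(N : ℝ) ^ (1 / 2 - δ / 4)⌋₊ ∧
      8 * H343.LL ⌊(N : ℝ) ^ (1 + δ / 4) / K⌋₊ ⌊(N : ℝ) ^ (1 / 2 - δ / 4)⌋₊ ≤ (N : ℝ) ^ (δ / 32) := by
  obtain ⟨n1, h1⟩ := div_N (δ / 32) (by positivity)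
  obtain ⟨C, hC, hLL⟩ := H343.LL_lower
  obtain ⟨C2, hC2, hLU⟩ := H343.LL_upper
  obtain ⟨n2, h2⟩ := ev_const ((2 + 2 / (δ / 64)) + 8 * C2 * (1 + 1 / (δ / 64))) (δ / 64) (by positivity)
  obtain ⟨n3, h3⟩ := ev_const 1000000 (δ / 32) (by positivity)
  have hlogt : Filter.Tendsto (fun N : ℕ => Real.log N) Filter.atTop Filter.atTop :=
    Real.tendsto_log_atTop.comp tendsto_natCast_atTop_atTop
  obtain ⟨n4, h4⟩ := Filter.eventually_atTop.1
    (hlogt.eventually (Filter.eventually_ge_atTop ((32 / δ) * (Real.log 2 + C + 1))))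
  refine ⟨max (max n1 n2) (max (max n3 n4) 16), fun N hN => ?_⟩
  have hn1 : n1 ≤ N := le_trans (le_trans (le_max_left _ _) (le_max_left _ _)) hN
  have hn2 : n2 ≤ N := le_trans (le_trans (le_max_right _ _) (le_max_left _ _)) hN
  have hn3 : n3 ≤ N := le_trans (le_trans (le_max_left _ _) (le_trans (le_max_left _ _) (le_max_right _ _))) hN
  have hn4 : n4 ≤ N := le_trans (le_trans (le_max_right _ _) (le_trans (le_max_left _ _) (le_max_right _ _))) hN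
  have hn5 : 16 ≤ N := le_trans (le_trans (le_max_right _ _) (le_max_right _ _)) hN
  have hN1 : 1 ≤ N := by omega
  have hN0 : (0 : ℝ) < N := by exact_mod_cast hN1
  have hN1r : (1 : ℝ) ≤ N := by exact_mod_cast hN1
  have g2 := h2 N hn2
  have g3 := h3 N hn3
  have g4 := h4 N hn4
  have hlogN : 0 ≤ Real.log N := Real.log_natCast_nonneg N
  have hlog2 : 0 ≤ Real.log 2 := Real.log_nonneg (by norm_num)
  have h5 : Real.log 2 + C + 1 ≤ δ / 32 * Real.log N := by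
    have : δ / 32 * ((32 / δ) * (Real.log 2 + C + 1)) ≤ δ / 32 * Real.log N := by gcongr
    have e : δ / 32 * ((32 / δ) * (Real.log 2 + C + 1)) = Real.log 2 + C + 1 := by field_simp
    linarith
  have h6 : Real.log N ≤ (N : ℝ) ^ (δ / 64) / (δ / 64) := Real.log_le_rpow_div hN0.le (by positivity)
  have h7 : (1 : ℝ) ≤ (N : ℝ) ^ (δ / 64) := Real.one_le_rpow hN1r (by positivity)
  have h8 : (N : ℝ) ^ (δ / 32) = (N : ℝ) ^ (δ / 64) * (N : ℝ) ^ (δ / 64) := by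
    rw [← Real.rpow_add hN0]
    congr 1
    ring
  have hδ0 : 0 < 2 / (δ / 64) := by positivity
  have hδ1 : 0 < 1 / (δ / 64) := by positivity
  refine ⟨hN1, h1 N hn1, ?_, g3, fun K hK hKN => ?_⟩
  · rw [h8]
    calc 2 + 2 * Real.log N ≤ 2 * (N : ℝ) ^ (δ / 64) + 2 * ((N : ℝ) ^ (δ / 64) / (δ / 64)) := by linarith
      _ = (N : ℝ) ^ (δ / 64) * (2 + 2 / (δ / 64)) := by ring
      _ ≤ _ := by
          apply mul_le_mul_of_nonneg_left _ (by positivity)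
          have : 0 ≤ 8 * C2 * (1 + 1 / (δ / 64)) := by positivity
          linarith
  · have hKr : (0 : ℝ) < K := lt_of_lt_of_le (by positivity) hK
    have hKN' : (K : ℝ) ≤ N := by exact_mod_cast hKN
    have hlogK : (1 / 2 + δ) * Real.log N ≤ Real.log K := by
      rw [← Real.log_rpow hN0]
      exact Real.log_le_log (by positivity) hK
    have hlogKN : Real.log K ≤ Real.log N := Real.log_le_log hKr hKN'
    have hδh : δ * Real.log N ≤ 1 / 2 * Real.log N := by linarith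
    have hlogpos : 0 < Real.log N := by
      have : 0 < δ / 32 * Real.log N := by linarith
      exact (pos_iff_pos_of_mul_pos this).1 (by positivity)
    have hδ2 : δ ≤ 1 / 2 := le_of_mul_le_mul_right hδh hlogpos
    set y : ℝ := (N : ℝ) ^ (1 + δ / 4) / K with hy
    have hy1 : 1 ≤ y := by
      rw [hy, le_div_iff₀ hKr, one_mul]
      refine hKN'.trans ?_
      calc (N : ℝ) = (N : ℝ) ^ (1 : ℝ) := (Real.rpow_one _).symm
        _ ≤ _ := Real.rpow_le_rpow_of_exponent_le hN1r (by linarith)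
    have hP1 : 1 ≤ ⌊y⌋₊ := Nat.one_le_iff_ne_zero.2 (Nat.floor_pos.2 hy1).ne'
    set w : ℝ := (N : ℝ) ^ (1 / 2 - δ / 4) with hw
    have hw1 : 1 ≤ w := Real.one_le_rpow hN1r (by linarith)
    have hR1 : 1 ≤ ⌊w⌋₊ := Nat.one_le_iff_ne_zero.2 (Nat.floor_pos.2 hw1).ne'
    have hR1r : (1 : ℝ) ≤ ⌊w⌋₊ := by exact_mod_cast hR1
    have hwN : w ≤ N := by
      calc w ≤ (N : ℝ) ^ (1 : ℝ) := Real.rpow_le_rpow_of_exponent_le hN1r (by linarith)
        _ = N := Real.rpow_one _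
    have hRN : ⌊w⌋₊ ≤ N := by
      have : (⌊w⌋₊ : ℝ) ≤ N := (Nat.floor_le (by linarith)).trans hwN
      exact_mod_cast this
    have hhalf : w / 2 ≤ ⌊w⌋₊ := by
      have := Nat.lt_floor_add_one w
      linarith
    have hlogR : (1 / 2 - δ / 4) * Real.log N - Real.log 2 ≤ Real.log ⌊w⌋₊ := by
      have h14 : Real.log (w / 2) = (1 / 2 - δ / 4) * Real.log N - Real.log 2 := by
        rw [Real.log_div (by positivity) (by norm_num), hw, Real.log_rpow hN0]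
      rw [← h14]
      exact Real.log_le_log (by positivity) hhalf
    have hlogP : Real.log ⌊y⌋₊ ≤ (1 + δ / 4) * Real.log N - Real.log K := by
      rw [← Real.log_rpow hN0, ← Real.log_div (by positivity) (by positivity)]
      apply Real.log_le_log (by exact_mod_cast hP1)
      exact Nat.floor_le (by linarith)
    have hPR : ⌊y⌋₊ ≤ ⌊w⌋₊ := by
      by_contra hcon
      push Not at hcon
      have h15 : Real.log ⌊w⌋₊ ≤ Real.log ⌊y⌋₊ := by
        apply Real.log_le_log (by linarith)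
        exact_mod_cast hcon.le
      nlinarith
    have h16 := hLL ⌊y⌋₊ ⌊w⌋₊ hP1 hPR
    have hlow : Real.log K - 1 / 2 * Real.log N - 17 / 32 * δ * Real.log N + 1 ≤ H343.LL ⌊y⌋₊ ⌊w⌋₊ := by
      nlinarith
    refine ⟨hP1, hR1, hRN, hlow, ?_, ?_⟩
    · nlinarith
    · rw [h8]
      have hlogRN : Real.log ⌊w⌋₊ ≤ Real.log N := Real.log_le_log (by linarith) (by exact_mod_cast hRN)
      calc 8 * H343.LL ⌊y⌋₊ ⌊w⌋₊ ≤ 8 * (C2 * (1 + Real.log ⌊w⌋₊)) := by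
            have := hLU ⌊y⌋₊ ⌊w⌋₊
            linarith
        _ ≤ 8 * (C2 * ((N : ℝ) ^ (δ / 64) + (N : ℝ) ^ (δ / 64) / (δ / 64))) := by
            apply mul_le_mul_of_nonneg_left _ (by norm_num)
            apply mul_le_mul_of_nonneg_left _ hC2.le
            linarith
        _ = (N : ℝ) ^ (δ / 64) * (8 * C2 * (1 + 1 / (δ / 64))) := by ring
        _ ≤ _ := by
            apply mul_le_mul_of_nonneg_left _ (by positivity)
            linarith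

theorem var_min (b : ℕ → ℕ) (f : ℕ → ℝ) (N q : ℕ) (S β : ℝ) (hq : 1 ≤ q)
    (hS : ∑ a ∈ Cls b q, cF f N q a = S) :
    ∑ a ∈ Cls b q, (cF f N q a - S / Nat.totient q) ^ 2 ≤ ∑ a ∈ Cls b q, (cF f N q a - β) ^ 2 := by
  have hφ : (0 : ℝ) < Nat.totient q := by exact_mod_cast Nat.totient_pos.2 hq
  have hc : ((Cls b q).card : ℝ) = Nat.totient q := by exact_mod_cast card_Cls b q hq
  set μ := S / (Nat.totient q : ℝ) with hμ
  have h1 : ∀ γ : ℝ, ∑ a ∈ Cls b q, (cF f N q a - γ) ^ 2 =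
      ∑ a ∈ Cls b q, cF f N q a ^ 2 - 2 * γ * S + Nat.totient q * γ ^ 2 := by
    intro γ
    have : ∀ a ∈ Cls b q, (cF f N q a - γ) ^ 2 = cF f N q a ^ 2 - 2 * γ * cF f N q a + γ ^ 2 := by
      intro a _
      ring
    rw [sum_congr rfl this, sum_add_distrib, sum_sub_distrib, ← mul_sum, hS, sum_const, nsmul_eq_mul, hc]
  rw [h1, h1]
  have h2 : S = μ * Nat.totient q := by rw [hμ]; field_simp
  rw [h2]
  nlinarith [mul_nonneg hφ.le (sq_nonneg (μ - β))]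

theorem sum_cF (b : ℕ → ℕ) (f : ℕ → ℝ) (N q : ℕ) (hq : 0 < q)
    (hf : ∀ n ∈ Icc 1 N, f n ≠ 0 → Av b q n) : ∑ a ∈ Cls b q, cF f N q a = ∑ n ∈ Icc 1 N, f n := by
  classical
  have h1 := cl_sum b N q hq (fun n => (f n.toNat : ℂ))
  simp_rw [cl_real] at h1
  rw [sum_intC] at h1
  have h2 : ∑ n ∈ Icc 1 N, (if Av b q ((n : ℕ) : ℤ) then (f ((n : ℕ) : ℤ).toNat : ℂ) else 0) =
      ((∑ n ∈ Icc 1 N, f n : ℝ) : ℂ) := by
    rw [Complex.ofReal_sum]
    refine sum_congr rfl fun n hn => ?_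
    by_cases h : f n = 0
    · simp [h]
    · rw [if_pos (hf n hn h)]
      simp
  rw [h2, ← Complex.ofReal_sum] at h1
  exact_mod_cast h1

end Pool.Agent.H535.LB
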