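import Pool.Agent.H535.LB.Cls

set_option autoImplicit false

/-!
# The inequality of Cauchy and Schwarz over the residue classes modulo `q`
-/

open Finset

namespace Pool.Agent.H535.LB

open Pool.Agent.Helper112 Pool.Agent.W110.HV

/-- the sum over a class modulo `q` -/
noncomputable def cl (N q : ℕ) (h : ℤ → ℂ) (a : ℕ) : ℂ :=
  ∑ n ∈ Icc (1 : ℤ) N, if (q : ℤ) ∣ n - a then h n else 0

theorem uniq (q : ℕ) (hq : 0 < q) (n : ℤ) (a : ℕ) (ha : a < q) :
    (q : ℤ) ∣ n - a ↔ a = (n % q).toNat := by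
  have hqz : (0 : ℤ) < q := by exact_mod_cast hq
  have h1 := Int.emod_nonneg n hqz.ne'
  have h2 := Int.emod_lt_of_pos n hqz
  have h3 : (((n % q).toNat : ℕ) : ℤ) = n % q := Int.toNat_of_nonneg h1
  constructor
  · intro h
    have h4 : (a : ℤ) % q = n % q := Int.modEq_iff_dvd.2 h
    have h5 : (a : ℤ) % q = a := Int.emod_eq_of_lt (by positivity) (by exact_mod_cast ha)
    rw [← h4, h5]
    rfl
  · intro h
    have h4 : (a : ℤ) = n % q := by rw [h, h3]
    rw [h4]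
    exact Int.dvd_self_sub_emod

theorem inner_uniq (q : ℕ) (hq : 0 < q) (n m : ℤ) (z : ℂ) :
    ∑ a ∈ range q, (if (q : ℤ) ∣ n - a ∧ (q : ℤ) ∣ m - a then z else 0) =
      if (q : ℤ) ∣ n - m then z else 0 := by
  have hqz : (0 : ℤ) < q := by exact_mod_cast hq
  have h1 := Int.emod_nonneg n hqz.ne'
  have h2 := Int.emod_lt_of_pos n hqz
  have hlt : (n % q).toNat < q := by omega
  rw [sum_eq_single (n % q).toNat]
  · have h3 := (uniq q hq n _ hlt).2 rfl
    by_cases h : (q : ℤ) ∣ n - m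
    · rw [if_pos h, if_pos]
      refine ⟨h3, ?_⟩
      have := dvd_sub h3 h
      have e : n - ((n % q).toNat : ℤ) - (n - m) = m - ((n % q).toNat : ℤ) := by ring
      rwa [e] at this
    · rw [if_neg h, if_neg]
      rintro ⟨h4, h5⟩
      apply h
      have := dvd_sub h4 h5
      have e : n - ((n % q).toNat : ℤ) - (m - ((n % q).toNat : ℤ)) = n - m := by ring
      rwa [e] at this
  · intro a ha hne
    rw [if_neg]
    rintro ⟨h4, _⟩
    exact hne ((uniq q hq n a (mem_range.1 ha)).1 h4)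
  · intro h
    exact absurd (mem_range.2 hlt) h

theorem cl_mul (N q : ℕ) (hq : 0 < q) (f g : ℤ → ℂ) :
    ∑ a ∈ range q, cl N q f a * (starRingEnd ℂ) (cl N q g a) =
      ∑ n ∈ Icc (1 : ℤ) N, f n * (starRingEnd ℂ) (g n) + off q 1 N f g := by
  have hqc : (q : ℂ) ≠ 0 := by exact_mod_cast hq.ne'
  have h1 := pars q hq 1 N f g
  rw [pars_off q hq 1 N f g] at h1
  rw [mul_left_cancel₀ hqc h1]
  unfold cl
  simp_rw [map_sum, sum_mul_sum]
  rw [sum_comm]
  refine sum_congr rfl fun n _ => ?_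
  rw [sum_comm]
  refine sum_congr rfl fun m _ => ?_
  rw [← inner_uniq q hq n m]
  refine sum_congr rfl fun a _ => ?_
  by_cases h1 : (q : ℤ) ∣ n - a
  · by_cases h2 : (q : ℤ) ∣ m - a
    · rw [if_pos h1, if_pos h2, if_pos ⟨h1, h2⟩]
    · have h3 : ¬ ((q : ℤ) ∣ n - a ∧ (q : ℤ) ∣ m - a) := fun h => h2 h.2
      rw [if_neg h2, if_neg h3, map_zero, mul_zero]
  · have h3 : ¬ ((q : ℤ) ∣ n - a ∧ (q : ℤ) ∣ m - a) := fun h => h1 h.1
    rw [if_neg h1, if_neg h3, zero_mul]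

open Classical in
theorem cl_sum (b : ℕ → ℕ) (N q : ℕ) (hq : 0 < q) (g : ℤ → ℂ) :
    ∑ a ∈ Cls b q, cl N q g a = ∑ n ∈ Icc (1 : ℤ) N, if Av b q n then g n else 0 := by
  unfold cl
  rw [sum_comm]
  refine sum_congr rfl fun n _ => ?_
  have hqz : (0 : ℤ) < q := by exact_mod_cast hq
  have h1 := Int.emod_nonneg n hqz.ne'
  have h2 := Int.emod_lt_of_pos n hqz
  have hlt : (n % q).toNat < q := by omega
  have h3 := (uniq q hq n _ hlt).2 rfl
  have key : Av b q n ↔ Av b q (((n % q).toNat : ℕ) : ℤ) := by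
    unfold Av
    have h5 : ∀ p ∈ q.primeFactors, ((p : ℤ) ∣ n - b p ↔ (p : ℤ) ∣ (((n % q).toNat : ℕ) : ℤ) - b p) := by
      intro p hp
      have h4 : (p : ℤ) ∣ n - (((n % q).toNat : ℕ) : ℤ) :=
        (Int.natCast_dvd_natCast.2 (Nat.dvd_of_mem_primeFactors hp)).trans h3
      constructor
      · intro h
        have := dvd_sub h h4
        have e : n - (b p : ℤ) - (n - (((n % q).toNat : ℕ) : ℤ)) = (((n % q).toNat : ℕ) : ℤ) - b p := by ring
        rwa [e] at this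
      · intro h
        have := dvd_add h h4
        have e : (((n % q).toNat : ℕ) : ℤ) - b p + (n - (((n % q).toNat : ℕ) : ℤ)) = n - b p := by ring
        rwa [e] at this
    exact forall₂_congr fun p hp => not_congr (h5 p hp)
  unfold Cls
  rw [sum_filter, sum_eq_single (n % q).toNat]
  · rw [if_pos h3]
    by_cases h : Av b q n
    · rw [if_pos h, if_pos (key.1 h)]
    · rw [if_neg h, if_neg (fun h' => h (key.2 h'))]
  · intro a ha hne
    rw [if_neg (fun h4 => hne ((uniq q hq n a (mem_range.1 ha)).1 h4))]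
    split_ifs <;> rfl
  · intro h
    exact absurd (mem_range.2 hlt) h

/-- the sum of `f` over the class of `a` modulo `q` -/
noncomputable def cF (f : ℕ → ℝ) (N q a : ℕ) : ℝ := ∑ n ∈ (Icc 1 N).filter (fun n => n ≡ a [MOD q]), f n

theorem cl_real (f : ℕ → ℝ) (N q a : ℕ) : cl N q (fun n => (f n.toNat : ℂ)) a = (cF f N q a : ℂ) := by
  unfold cl cF
  rw [sum_intC, sum_filter, Complex.ofReal_sum]
  refine sum_congr rfl fun n _ => ?_
  have : ((q : ℤ) ∣ (n : ℤ) - a) ↔ n ≡ a [MOD q] := by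
    rw [Nat.ModEq.comm]
    exact (Nat.modEq_iff_dvd).symm
  by_cases h : n ≡ a [MOD q]
  · rw [if_pos h, if_pos (this.2 h)]
    simp
  · rw [if_neg h, if_neg (fun h' => h (this.1 h'))]
    simp

/-- the inequality of Cauchy and Schwarz -/
theorem core (b : ℕ → ℕ) (N q : ℕ) (hq : 0 < q) (f : ℕ → ℝ) (g : ℤ → ℂ) (L : ℝ)
    (hf : ∀ n ∈ Icc 1 N, f n ≠ 0 → Av b q n) (hg : ∀ n ∈ Icc 1 N, f n ≠ 0 → g n = L) (β T : ℝ)
    (hT : ∀ γ : ℝ, ‖∑ a ∈ Cls b q, cl N q g a‖ ≤ T) :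
    L * |∑ n ∈ Icc 1 N, f n| - ‖off q 1 N (fun n => (f n.toNat : ℂ)) g‖ - |β| * T ≤
      Real.sqrt ((∑ a ∈ Cls b q, (cF f N q a - β) ^ 2) *
        (∑ n ∈ Icc (1 : ℤ) N, ‖g n‖ ^ 2 + ‖off q 1 N g g‖)) := by
  classical
  set S := ∑ n ∈ Icc 1 N, f n with hS
  have h1 := cl_mul N q hq (fun n => (f n.toNat : ℂ)) g
  have h2 : ∑ n ∈ Icc (1 : ℤ) N, (f n.toNat : ℂ) * (starRingEnd ℂ) (g n) = ((L * S : ℝ) : ℂ) := by
    rw [sum_intC, hS, mul_sum, Complex.ofReal_sum]
    refine sum_congr rfl fun n hn => ?_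
    by_cases h : f n = 0
    · simp [h]
    · rw [hg n hn h, Complex.conj_ofReal]
      push_cast
      simp [mul_comm]
  have h3 : ∑ a ∈ range q, cl N q (fun n => (f n.toNat : ℂ)) a * (starRingEnd ℂ) (cl N q g a) =
      ∑ a ∈ Cls b q, cl N q (fun n => (f n.toNat : ℂ)) a * (starRingEnd ℂ) (cl N q g a) := by
    symm
    apply sum_subset
    · unfold Cls
      exact filter_subset _ _
    · intro a ha ha2
      rw [cl_real]
      have : cF f N q a = 0 := by
        unfold cF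
        apply sum_eq_zero
        intro n hn
        rw [mem_filter] at hn
        by_contra hne
        apply ha2
        unfold Cls
        rw [mem_filter]
        refine ⟨ha, ?_⟩
        have h4 := hf n hn.1 hne
        intro p hp h5
        apply h4 p hp
        have h6 : (p : ℤ) ∣ (n : ℤ) - a := by
          have h7 : (q : ℤ) ∣ (n : ℤ) - a := Nat.modEq_iff_dvd.1 hn.2.symm
          exact (Int.natCast_dvd_natCast.2 (Nat.dvd_of_mem_primeFactors hp)).trans h7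
        have := dvd_add h5 h6
        have e : (a : ℤ) - b p + ((n : ℤ) - a) = (n : ℤ) - b p := by ring
        rwa [e] at this
      rw [this]
      simp
  have h4 : ∑ a ∈ Cls b q, (((cF f N q a - β : ℝ)) : ℂ) * (starRingEnd ℂ) (cl N q g a) =
      ((L * S : ℝ) : ℂ) + off q 1 N (fun n => (f n.toNat : ℂ)) g -
        β * (starRingEnd ℂ) (∑ a ∈ Cls b q, cl N q g a) := by
    rw [← h2, ← h1, h3, map_sum, mul_sum, ← sum_sub_distrib]
    refine sum_congr rfl fun a _ => ?_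
    rw [cl_real]
    push_cast
    ring
  have h5 : ∑ a ∈ Cls b q, ‖cl N q g a‖ ^ 2 ≤ ∑ n ∈ Icc (1 : ℤ) N, ‖g n‖ ^ 2 + ‖off q 1 N g g‖ := by
    have h6 := cl_mul N q hq g g
    simp_rw [mul_conj_norm] at h6
    have h7 : ((∑ a ∈ range q, ‖cl N q g a‖ ^ 2 : ℝ) : ℂ) =
        ((∑ n ∈ Icc (1 : ℤ) N, ‖g n‖ ^ 2 : ℝ) : ℂ) + off q 1 N g g := by
      push_cast
      push_cast at h6
      exact h6
    have h8 : (∑ a ∈ range q, ‖cl N q g a‖ ^ 2) = ∑ n ∈ Icc (1 : ℤ) N, ‖g n‖ ^ 2 + (off q 1 N g g).re := by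
      have := congrArg Complex.re h7
      rw [Complex.add_re, Complex.ofReal_re, Complex.ofReal_re] at this
      exact this
    calc ∑ a ∈ Cls b q, ‖cl N q g a‖ ^ 2 ≤ ∑ a ∈ range q, ‖cl N q g a‖ ^ 2 := by
          apply sum_le_sum_of_subset_of_nonneg
          · unfold Cls
            exact filter_subset _ _
          · intro _ _ _
            positivity
      _ = _ := h8
      _ ≤ _ := by
          have := Complex.re_le_norm (off q 1 N g g)
          linarith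
  have h9 : ‖∑ a ∈ Cls b q, (((cF f N q a - β : ℝ)) : ℂ) * (starRingEnd ℂ) (cl N q g a)‖ ≤
      Real.sqrt ((∑ a ∈ Cls b q, (cF f N q a - β) ^ 2) *
        (∑ n ∈ Icc (1 : ℤ) N, ‖g n‖ ^ 2 + ‖off q 1 N g g‖)) := by
    apply Real.le_sqrt_of_sq_le
    calc ‖∑ a ∈ Cls b q, (((cF f N q a - β : ℝ)) : ℂ) * (starRingEnd ℂ) (cl N q g a)‖ ^ 2
        ≤ (∑ a ∈ Cls b q, |cF f N q a - β| * ‖cl N q g a‖) ^ 2 := by
          apply pow_le_pow_left₀ (norm_nonneg _)
          refine (norm_sum_le _ _).trans (sum_le_sum fun a _ => ?_)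
          rw [norm_mul, RCLike.norm_conj, Complex.norm_real, Real.norm_eq_abs]
      _ ≤ (∑ a ∈ Cls b q, |cF f N q a - β| ^ 2) * ∑ a ∈ Cls b q, ‖cl N q g a‖ ^ 2 :=
          sum_mul_sq_le_sq_mul_sq _ _ _
      _ ≤ _ := by
          simp_rw [sq_abs]
          exact mul_le_mul_of_nonneg_left h5 (sum_nonneg fun _ _ => sq_nonneg _)
  rw [h4] at h9
  refine le_trans ?_ h9
  have h10 := hT 0
  have h11 : ‖(β : ℂ) * (starRingEnd ℂ) (∑ a ∈ Cls b q, cl N q g a)‖ ≤ |β| * T := by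
    rw [norm_mul, RCLike.norm_conj, Complex.norm_real, Real.norm_eq_abs]
    exact mul_le_mul_of_nonneg_left h10 (abs_nonneg _)
  have h12 : L * |S| ≤ ‖((L * S : ℝ) : ℂ)‖ := by
    rw [Complex.norm_real, Real.norm_eq_abs, abs_mul]
    exact mul_le_mul_of_nonneg_right (le_abs_self _) (abs_nonneg _)
  have h13 : ‖((L * S : ℝ) : ℂ)‖ ≤ ‖((L * S : ℝ) : ℂ) + off q 1 N (fun n => (f n.toNat : ℂ)) g -
        β * (starRingEnd ℂ) (∑ a ∈ Cls b q, cl N q g a)‖ +
        ‖off q 1 N (fun n => (f n.toNat : ℂ)) g‖ +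
        ‖(β : ℂ) * (starRingEnd ℂ) (∑ a ∈ Cls b q, cl N q g a)‖ := by
    set X := ((L * S : ℝ) : ℂ)
    set Y := off q 1 N (fun n => (f n.toNat : ℂ)) g
    set W := (β : ℂ) * (starRingEnd ℂ) (∑ a ∈ Cls b q, cl N q g a)
    have e : X = (X + Y - W) - Y + W := by ring
    calc ‖X‖ = ‖(X + Y - W) - Y + W‖ := by rw [← e]
      _ ≤ ‖(X + Y - W) - Y‖ + ‖W‖ := norm_add_le _ _
      _ ≤ _ := by
          have := norm_sub_le (X + Y - W) Y
          linarith
  linarith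

end Pool.Agent.H535.LB
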