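import Pool.Agent.H535.LB.Almost

set_option autoImplicit false

/-!
# Almost all moduli: the theorem
-/

open Finset

namespace Pool.Agent.H535.LB

open Pool.Agent.Helper112 Pool.Agent.W110.HV

theorem main (δ : ℝ) (hδ : 0 < δ) : ∃ N0 : ℕ, ∀ N : ℕ, N0 ≤ N → ∀ K : ℕ,
    (N : ℝ) ^ (1 / 2 + δ) ≤ K → K ≤ N → ∀ (b : ℕ → ℕ) (f : ℕ → ℝ),
    (∀ n ∈ Icc 1 N, f n ≠ 0 → ∀ p : ℕ, p.Prime → p ≤ 2 * K → ¬ (p : ℤ) ∣ (n : ℤ) - b p) →
    (N : ℝ) * ∑ n ∈ Icc 1 N, f n ^ 2 ≤ (N : ℝ) ^ (δ / 32) * (∑ n ∈ Icc 1 N, f n) ^ 2 →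
    ∃ E : Finset ℕ, E ⊆ Ioc K (2 * K) ∧ (E.card : ℝ) ≤ K / (N : ℝ) ^ (δ / 32) ∧
      ∀ q ∈ Ioc K (2 * K), q ∉ E → ∀ β : ℝ,
        (Real.log K - (1 / 2 + δ) * Real.log N) * (∑ n ∈ Icc 1 N, f n) ^ 2 / N ≤
          ∑ a ∈ Cls b q, (cF f N q a - β) ^ 2 := by
  obtain ⟨N0, h0⟩ := pars_large δ hδ
  refine ⟨N0, fun N hN K hK hKN b f hf hnorm => ?_⟩
  obtain ⟨hN1, hdiv, hlog, hbig, hrest⟩ := h0 N hN
  obtain ⟨hP1, hR1, hRN, hL, hL1, hL2⟩ := hrest K hK hKN
  have hN0 : (0 : ℝ) < N := by exact_mod_cast hN1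
  have hN1r : (1 : ℝ) ≤ N := by exact_mod_cast hN1
  have hKr : (0 : ℝ) < K := lt_of_lt_of_le (by positivity) hK
  have hK1 : 1 ≤ K := by exact_mod_cast hKr
  have hKN' : (K : ℝ) ≤ N := by exact_mod_cast hKN
  set u : ℝ := (N : ℝ) ^ (δ / 32) with hu
  have hu0 : 0 < u := by positivity
  have hu1 : 1 ≤ u := by linarith
  set P : ℕ := ⌊(N : ℝ) ^ (1 + δ / 4) / K⌋₊ with hP
  set R : ℕ := ⌊(N : ℝ) ^ (1 / 2 - δ / 4)⌋₊ with hR
  set L := H343.LL P R with hLdef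
  set S := ∑ n ∈ Icc 1 N, f n with hS
  have hlogN0 : 0 ≤ Real.log N := Real.log_natCast_nonneg N
  by_cases hS0 : S = 0
  · refine ⟨∅, empty_subset _, by simp; positivity, fun q _ _ β => ?_⟩
    rw [hS0]
    have : (Real.log K - (1 / 2 + δ) * Real.log N) * (0 : ℝ) ^ 2 / N = 0 := by simp
    rw [this]
    exact sum_nonneg fun _ _ => sq_nonneg _
  have hSpos : 0 < S ^ 2 := by positivity
  have hSabs : 0 < |S| := abs_pos.2 hS0
  obtain ⟨B, hB⟩ := exists_shift b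
  have hR1r : (1 : ℝ) ≤ R := by exact_mod_cast hR1
  have hlogR0 : 0 ≤ Real.log R := Real.log_natCast_nonneg R
  have hlogRN : Real.log R ≤ Real.log N := Real.log_le_log (by linarith) (by exact_mod_cast hRN)
  have hu8 : (N : ℝ) ^ (δ / 4) = u ^ 8 := by
    rw [hu, ← Real.rpow_natCast, ← Real.rpow_mul hN0.le]
    congr 1
    push_cast
    ring
  have hRu : (R : ℝ) * u ^ 8 ≤ (N : ℝ) ^ (1 / 2 : ℝ) := by
    have h1 : (R : ℝ) ≤ (N : ℝ) ^ (1 / 2 - δ / 4) := Nat.floor_le (by positivity)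
    calc (R : ℝ) * u ^ 8 ≤ (N : ℝ) ^ (1 / 2 - δ / 4) * u ^ 8 := by gcongr
      _ = (N : ℝ) ^ (1 / 2 : ℝ) := by
          rw [← hu8, ← Real.rpow_add hN0]
          congr 1
          ring
  have hNK : (N : ℝ) ^ (1 / 2 : ℝ) ≤ K :=
    (Real.rpow_le_rpow_of_exponent_le hN1r (by linarith)).trans hK
  have hR2 : (R : ℝ) ^ 2 * u ^ 16 ≤ N := by
    calc (R : ℝ) ^ 2 * u ^ 16 = ((R : ℝ) * u ^ 8) ^ 2 := by ring
      _ ≤ ((N : ℝ) ^ (1 / 2 : ℝ)) ^ 2 := by gcongr
      _ = N := by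
          rw [← Real.sqrt_eq_rpow, Real.sq_sqrt hN0.le]
  -- the supremum
  have hRK : (R : ℝ) ≤ K / u ^ 8 := by
    rw [le_div_iff₀ (by positivity)]
    exact hRu.trans hNK
  have hNP : (N : ℝ) / (P + 1 : ℕ) ≤ K / u ^ 8 := by
    have h1 : (N : ℝ) ^ (1 + δ / 4) / K < (P + 1 : ℕ) := by
      rw [hP]
      push_cast
      exact Nat.lt_floor_add_one _
    have h2 : (N : ℝ) ^ (1 + δ / 4) = N * u ^ 8 := by
      rw [Real.rpow_add hN0, Real.rpow_one, hu8]
    rw [h2, div_lt_iff₀ hKr] at h1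
    rw [div_le_div_iff₀ (by positivity) (by positivity)]
    linarith
  have hD : ∀ r : ℕ, 1 ≤ r → r ≤ R → (r.divisors.card : ℝ) ≤ u := fun r h1 h2 => hdiv r h1 (by omega)
  set Z : ℝ := 24 * K / u ^ 6 with hZ
  have hZ0 : 0 < Z := by positivity
  have hsup : ∀ α : ℝ, ‖ES 1 N (gg B P R) α‖ ≤ Z := by
    intro α
    refine (gg_sup B P R N u hu0.le hD α).trans ?_
    have h1 : 1 + 2 * Real.log R ≤ u := by linarith
    calc u * (12 * ((N : ℝ) / (P + 1 : ℕ) + R) * (1 + 2 * Real.log R))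
        ≤ u * (12 * (K / u ^ 8 + K / u ^ 8) * u) := by gcongr
      _ = Z := by
          rw [hZ]
          field_simp
          norm_num
  -- the quadratic mean
  have hu16 : u ≤ u ^ 16 / u := by
    rw [le_div_iff₀ hu0]
    calc u * u = u ^ 2 := by ring
      _ ≤ u ^ 16 := pow_le_pow_right₀ hu1 (by norm_num)
  have hl2 : ∑ n ∈ Icc (1 : ℤ) N, ‖gg B P R n‖ ^ 2 ≤ N * (1 + 1 / u) * L := by
    refine (gg_l2s B P R N hR1).trans ?_
    have h1 : (R : ℝ) ^ 2 * (2 + 2 * Real.log R) ≤ N / u := by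
      calc (R : ℝ) ^ 2 * (2 + 2 * Real.log R) ≤ (R : ℝ) ^ 2 * (u ^ 16 / u) := by
            apply mul_le_mul_of_nonneg_left _ (by positivity)
            linarith
        _ = ((R : ℝ) ^ 2 * u ^ 16) / u := by ring
        _ ≤ N / u := by gcongr
    have h2 : (N : ℝ) + (R : ℝ) ^ 2 * (2 + 2 * Real.log R) ≤ N * (1 + 1 / u) := by
      calc (N : ℝ) + (R : ℝ) ^ 2 * (2 + 2 * Real.log R) ≤ N + N / u := by linarith
        _ = N * (1 + 1 / u) := by ring
    exact mul_le_mul_of_nonneg_right h2 (by linarith)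
  have hdivh : ∀ h : ℤ, h ≠ 0 → |h| ≤ (N : ℤ) - 1 → (h.natAbs.divisors.card : ℝ) ≤ u := by
    intro h h1 h2
    apply hdiv
    · exact Nat.one_le_iff_ne_zero.2 (Int.natAbs_ne_zero.2 h1)
    · have : (h.natAbs : ℤ) = |h| := Int.natCast_natAbs h
      omega
  set fC : ℤ → ℂ := fun n => (f n.toNat : ℂ) with hfC
  have hNz : (1 : ℤ) ≤ N := by exact_mod_cast hN1
  have hfl2 : ∑ n ∈ Icc (1 : ℤ) N, ‖fC n‖ ^ 2 = ∑ n ∈ Icc 1 N, f n ^ 2 := by
    rw [sum_int N (fun n => ‖fC n‖ ^ 2)]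
    refine sum_congr rfl fun n _ => ?_
    simp only [hfC, Int.toNat_natCast, Complex.norm_real, Real.norm_eq_abs, sq_abs]
  have hoff1 : ∑ q ∈ Ioc K (2 * K), ‖off q 1 N fC (gg B P R)‖ ^ 2 ≤ 1152 * K * S ^ 2 / u ^ 10 := by
    refine (off_avg 1 N hNz K hK1 fC (gg B P R) Z u hsup hu0.le hdivh).trans ?_
    rw [hfl2]
    have h1 : (N : ℝ) * ∑ n ∈ Icc 1 N, f n ^ 2 ≤ u * S ^ 2 := hnorm
    have h2 : 0 ≤ ∑ n ∈ Icc 1 N, f n ^ 2 := sum_nonneg fun _ _ => sq_nonneg _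
    calc 2 * (((N : ℤ) : ℝ) - ((1 : ℤ) : ℝ)) / K * u * Z ^ 2 * ∑ n ∈ Icc 1 N, f n ^ 2
        ≤ 2 * N / K * u * Z ^ 2 * ∑ n ∈ Icc 1 N, f n ^ 2 := by
          gcongr
          push_cast
          linarith
      _ = 2 / K * u * Z ^ 2 * (N * ∑ n ∈ Icc 1 N, f n ^ 2) := by ring
      _ ≤ 2 / K * u * Z ^ 2 * (u * S ^ 2) := by gcongr
      _ = 1152 * K * S ^ 2 / u ^ 10 := by
          rw [hZ]
          field_simp
          norm_num
  have hoff2 : ∑ q ∈ Ioc K (2 * K), ‖off q 1 N (gg B P R) (gg B P R)‖ ^ 2 ≤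
      2304 * K * (N ^ 2 * L) / u ^ 11 := by
    refine (off_avg 1 N hNz K hK1 (gg B P R) (gg B P R) Z u hsup hu0.le hdivh).trans ?_
    have h3 : N * (1 + 1 / u) * L ≤ 2 * N * L := by
      have : 1 / u ≤ 1 := by
        rw [div_le_one hu0]
        exact hu1
      have h4 : (N : ℝ) * (1 + 1 / u) ≤ 2 * N := by nlinarith
      exact mul_le_mul_of_nonneg_right h4 (by linarith)
    calc 2 * (((N : ℤ) : ℝ) - ((1 : ℤ) : ℝ)) / K * u * Z ^ 2 * ∑ n ∈ Icc (1 : ℤ) N, ‖gg B P R n‖ ^ 2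
        ≤ 2 * N / K * u * Z ^ 2 * (2 * N * L) := by
          gcongr
          · push_cast
            linarith
          · exact hl2.trans h3
      _ = 2304 * K * (N ^ 2 * L) / u ^ 11 := by
          rw [hZ]
          field_simp
          norm_num
  -- the exceptional moduli
  set E1 := (Ioc K (2 * K)).filter (fun q => S ^ 2 / u ^ 2 < ‖off q 1 N fC (gg B P R)‖ ^ 2) with hE1
  set E2 := (Ioc K (2 * K)).filter
    (fun q => (N : ℝ) ^ 2 * L ^ 2 / u ^ 2 < ‖off q 1 N (gg B P R) (gg B P R)‖ ^ 2) with hE2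
  have hc1 : (E1.card : ℝ) ≤ K / (2 * u) := by
    apply markov _ _ (fun _ _ => by positivity) _ _ _ hoff1 (by positivity)
    have h1 : (1000000 : ℝ) ≤ u ^ 7 := hbig.trans (le_self_pow₀ hu1 (by norm_num))
    calc 1152 * (K : ℝ) * S ^ 2 / u ^ 10 = (K * S ^ 2 / (2 * u ^ 3)) * (2304 / u ^ 7) := by
          field_simp
          norm_num
      _ ≤ (K * S ^ 2 / (2 * u ^ 3)) * 1 := by
          apply mul_le_mul_of_nonneg_left _ (by positivity)
          rw [div_le_one (by positivity)]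
          linarith
      _ = K / (2 * u) * (S ^ 2 / u ^ 2) := by
          field_simp
  have hc2 : (E2.card : ℝ) ≤ K / (2 * u) := by
    apply markov _ _ (fun _ _ => by positivity) _ _ _ hoff2 (by positivity)
    have h1 : (1000000 : ℝ) ≤ u ^ 8 := hbig.trans (le_self_pow₀ hu1 (by norm_num))
    have hL0 : 0 < L := by linarith
    have h3 : (K : ℝ) * (N ^ 2 * L) ≤ K * (N ^ 2 * L ^ 2) := by
      have : L ≤ L ^ 2 := le_self_pow₀ hL1 (by norm_num)
      gcongr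
    calc 2304 * (K : ℝ) * (N ^ 2 * L) / u ^ 11 = (K * (N ^ 2 * L)) * (1 / (2 * u ^ 3)) * (4608 / u ^ 8) := by
          field_simp
          norm_num
      _ ≤ (K * (N ^ 2 * L ^ 2)) * (1 / (2 * u ^ 3)) * 1 := by
          apply mul_le_mul _ _ (by positivity) (by positivity)
          · exact mul_le_mul_of_nonneg_right h3 (by positivity)
          · rw [div_le_one (by positivity)]
            linarith
      _ = K / (2 * u) * (N ^ 2 * L ^ 2 / u ^ 2) := by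
          field_simp
  refine ⟨E1 ∪ E2, union_subset (filter_subset _ _) (filter_subset _ _), ?_, ?_⟩
  · have h1 : ((E1 ∪ E2).card : ℝ) ≤ E1.card + E2.card := by exact_mod_cast card_union_le _ _
    have h2 : (K : ℝ) / (2 * u) + K / (2 * u) = K / u := by
      field_simp
      norm_num
    linarith
  intro q hq hqE β
  rw [mem_union, not_or, hE1, hE2, mem_filter, mem_filter] at hqE
  have hq' := mem_Ioc.1 hq
  have hq0 : 0 < q := by omega
  have hqr : (0 : ℝ) < q := by exact_mod_cast hq0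
  have hg1 : ‖off q 1 N fC (gg B P R)‖ ^ 2 ≤ S ^ 2 / u ^ 2 := by
    by_contra hcon
    exact hqE.1 ⟨hq, not_le.1 hcon⟩
  have hg2 : ‖off q 1 N (gg B P R) (gg B P R)‖ ^ 2 ≤ (N : ℝ) ^ 2 * L ^ 2 / u ^ 2 := by
    by_contra hcon
    exact hqE.2 ⟨hq, not_le.1 hcon⟩
  have hg1' : ‖off q 1 N fC (gg B P R)‖ ≤ |S| / u := by
    apply abs_le_of_sq_le_sq' _ (by positivity) |>.2
    rw [div_pow, sq_abs]
    exact hg1
  have hg2' : ‖off q 1 N (gg B P R) (gg B P R)‖ ≤ N * L / u := by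
    apply abs_le_of_sq_le_sq' _ (by positivity) |>.2
    rw [div_pow, mul_pow]
    exact hg2
  have hAv : ∀ n ∈ Icc 1 N, f n ≠ 0 → Av b q n := by
    intro n hn hne p hp
    exact hf n hn hne p (Nat.prime_of_mem_primeFactors hp)
      ((Nat.le_of_dvd hq0 (Nat.dvd_of_mem_primeFactors hp)).trans hq'.2)
  have hgL : ∀ n ∈ Icc 1 N, f n ≠ 0 → gg B P R n = (L : ℂ) := by
    intro n hn hne
    apply gg_sifted hB
    intro p hp hpR
    apply hf n hn hne p hp
    have : (R : ℝ) ≤ K := by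
      refine hRK.trans ?_
      apply div_le_self hKr.le
      exact one_le_pow₀ hu1
    have : R ≤ K := by exact_mod_cast this
    omega
  have hdq : (q.divisors.card : ℝ) ≤ u := hdiv q (by omega) (by omega)
  have hT : ∀ γ : ℝ, ‖∑ a ∈ Cls b q, cl N q (gg B P R) a‖ ≤ u * Z := by
    classical
    intro _
    rw [cl_sum b N q hq0]
    refine (cls_sum hB N q (by omega) (gg B P R) Z hsup).trans ?_
    exact mul_le_mul_of_nonneg_right hdq hZ0.le
  have hφ : (0 : ℝ) < Nat.totient q := by exact_mod_cast Nat.totient_pos.2 hq0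
  have hmain := core b N q hq0 f (gg B P R) L hAv hgL (S / Nat.totient q) (u * Z) hT
  rw [← hS, ← hfC] at hmain
  have hμ : |S / (Nat.totient q : ℝ)| * (u * Z) ≤ |S| / u := by
    rw [abs_div, abs_of_pos hφ]
    have h1 : (q : ℝ) ≤ u * Nat.totient q := totient_ge q hq0 u hdq
    have h2 : (K : ℝ) ≤ q := by exact_mod_cast hq'.1.le
    have h3 : 1 / (Nat.totient q : ℝ) ≤ u / K := by
      rw [div_le_div_iff₀ hφ hKr, one_mul]
      linarith
    calc |S| / (Nat.totient q : ℝ) * (u * Z) = |S| * (1 / (Nat.totient q : ℝ)) * (u * Z) := by ring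
      _ ≤ |S| * (u / K) * (u * Z) := by gcongr
      _ = |S| * (24 / u ^ 4) := by
          rw [hZ]
          field_simp
      _ ≤ |S| * (1 / u) := by
          apply mul_le_mul_of_nonneg_left _ hSabs.le
          rw [div_le_div_iff₀ (by positivity) hu0]
          have : u * u ≤ u ^ 4 := by
            calc u * u = u ^ 2 := by ring
              _ ≤ u ^ 4 := pow_le_pow_right₀ hu1 (by norm_num)
          nlinarith
      _ = _ := by ring
  set V := ∑ a ∈ Cls b q, (cF f N q a - S / Nat.totient q) ^ 2 with hV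
  have hV0 : 0 ≤ V := sum_nonneg fun _ _ => sq_nonneg _
  have hLu : L - 2 / u > 0 := by
    have : 2 / u < 1 := by
      rw [div_lt_one hu0]
      linarith
    linarith
  have h1 : |S| * (L - 2 / u) ≤ Real.sqrt (V * (N * (1 + 2 / u) * L)) := by
    have h2 : Real.sqrt (V * (∑ n ∈ Icc (1 : ℤ) N, ‖gg B P R n‖ ^ 2 +
        ‖off q 1 N (gg B P R) (gg B P R)‖)) ≤ Real.sqrt (V * (N * (1 + 2 / u) * L)) := by
      apply Real.sqrt_le_sqrt
      apply mul_le_mul_of_nonneg_left _ hV0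
      calc ∑ n ∈ Icc (1 : ℤ) N, ‖gg B P R n‖ ^ 2 + ‖off q 1 N (gg B P R) (gg B P R)‖
          ≤ N * (1 + 1 / u) * L + N * L / u := add_le_add hl2 hg2'
        _ = _ := by ring
    have h3 : |S| * (L - 2 / u) = L * |S| - |S| / u - |S| / u := by ring
    linarith
  have h2 : (|S| * (L - 2 / u)) ^ 2 ≤ V * (N * (1 + 2 / u) * L) := by
    have h3 : 0 ≤ V * (N * (1 + 2 / u) * L) := by positivity
    calc (|S| * (L - 2 / u)) ^ 2 ≤ Real.sqrt (V * (N * (1 + 2 / u) * L)) ^ 2 :=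
          pow_le_pow_left₀ (by positivity) h1 2
      _ = _ := Real.sq_sqrt h3
  have hL0 : 0 < L := by linarith
  have h3 : S ^ 2 * (L - 4 / u) ≤ V * (N * (1 + 2 / u)) := by
    have h4 : L * (S ^ 2 * (L - 4 / u)) ≤ L * (V * (N * (1 + 2 / u))) := by
      have e1 : (|S| * (L - 2 / u)) ^ 2 = L * (S ^ 2 * (L - 4 / u)) + S ^ 2 * (2 / u) ^ 2 := by
        rw [mul_pow, sq_abs]
        ring
      have e2 : 0 ≤ S ^ 2 * (2 / u) ^ 2 := by positivity
      have e3 : V * (N * (1 + 2 / u) * L) = L * (V * (N * (1 + 2 / u))) := by ring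
      linarith
    exact le_of_mul_le_mul_left h4 hL0
  have h4 : S ^ 2 * (L - 1) ≤ V * N := by
    have h5 : (L - 1) * (1 + 2 / u) ≤ L - 4 / u := by
      have e1 : 2 * L / u ≤ 1 / 4 := by
        rw [div_le_div_iff₀ hu0 (by norm_num)]
        linarith
      have e2 : 2 / u ≤ 1 / 4 := by
        rw [div_le_div_iff₀ hu0 (by norm_num)]
        linarith
      have e3 : (L - 1) * (1 + 2 / u) = L - 1 + 2 * L / u - 2 / u := by ring
      have e4 : 4 / u = 2 / u + 2 / u := by ring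
      rw [e3, e4]
      linarith
    have h6 : (1 + 2 / u) * (S ^ 2 * (L - 1)) ≤ (1 + 2 / u) * (V * N) := by
      calc (1 + 2 / u) * (S ^ 2 * (L - 1)) = S ^ 2 * ((L - 1) * (1 + 2 / u)) := by ring
        _ ≤ S ^ 2 * (L - 4 / u) := mul_le_mul_of_nonneg_left h5 hSpos.le
        _ ≤ V * (N * (1 + 2 / u)) := h3
        _ = _ := by ring
    exact le_of_mul_le_mul_left h6 (by positivity)
  have h5 : (Real.log K - (1 / 2 + δ) * Real.log N) * S ^ 2 / N ≤ V := by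
    rw [div_le_iff₀ hN0]
    refine le_trans ?_ h4
    rw [mul_comm (S ^ 2)]
    apply mul_le_mul_of_nonneg_right _ hSpos.le
    have : 0 ≤ 15 / 32 * δ * Real.log N := by positivity
    linarith
  refine h5.trans ?_
  exact var_min b f N q S β (by omega) (sum_cF b f N q hq0 hAv)

end Pool.Agent.H535.LB
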