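import Pool.Agent.H535.LB.Sums

set_option autoImplicit false

/-!
# The primes
-/

open Finset

namespace Pool.Agent.H535.LB

open Pool.Agent.Helper112 Pool.Agent.W110.HV

open Classical in
/-- the indicator function of the primes between `N ^ α` and `N` -/
noncomputable def pf (α : ℝ) (N : ℕ) (n : ℕ) : ℝ := if n.Prime ∧ (N : ℝ) ^ α < n then 1 else 0

theorem pf_param (α κ : ℝ) (hα : 1 / 2 < α) (hα1 : α < 1) (hκ : 0 < κ) : ∃ N0 : ℕ, ∀ N : ℕ, N0 ≤ N →
    3 ≤ N ∧ (N : ℝ) / (2 * Real.log N) ≤ ∑ n ∈ Icc 1 N, pf α N n ∧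
    (N : ℝ) * ∑ n ∈ Icc 1 N, pf α N n ^ 2 ≤ (N : ℝ) ^ κ * (∑ n ∈ Icc 1 N, pf α N n) ^ 2 ∧
    10 ≤ Real.sqrt (α - 1 / 2) / 4 * ((N : ℝ) ^ ((1 - α) / 2) / Real.sqrt (Real.log N)) := by
  classical
  set η := (1 - α) / 2 with hη
  have hη0 : 0 < η := by rw [hη]; linarith
  have hsq : 0 < Real.sqrt (α - 1 / 2) := Real.sqrt_pos.2 (by linarith)
  obtain ⟨n1, h1⟩ := ev_const (40 / η) η hη0
  obtain ⟨n2, h2⟩ := ev_const (2 / (κ / 2)) (κ / 2) (by positivity)
  obtain ⟨n3, h3⟩ := ev_const (40 / Real.sqrt (α - 1 / 2) * (1 / (η / 2) + 1)) (η / 2) (by positivity)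
  refine ⟨max (max n1 n2) (max n3 1000), fun N hN => ?_⟩
  have hn1 : n1 ≤ N := le_trans (le_trans (le_max_left _ _) (le_max_left _ _)) hN
  have hn2 : n2 ≤ N := le_trans (le_trans (le_max_right _ _) (le_max_left _ _)) hN
  have hn3 : n3 ≤ N := le_trans (le_trans (le_max_left _ _) (le_max_right _ _)) hN
  have hN3 : 1000 ≤ N := le_trans (le_trans (le_max_right _ _) (le_max_right _ _)) hN
  have hN0 : (0 : ℝ) < N := by exact_mod_cast (by omega : 0 < N)
  have hN1r : (1 : ℝ) ≤ N := by exact_mod_cast (by omega : 1 ≤ N)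
  have hN1000 : (1000 : ℝ) ≤ N := by exact_mod_cast hN3
  have g1 := h1 N hn1
  have g2 := h2 N hn2
  have g3 := h3 N hn3
  have hlog1 : 1 ≤ Real.log N := by
    rw [Real.le_log_iff_exp_le hN0]
    have := Real.exp_one_lt_d9
    linarith
  have hlog0 : 0 < Real.log N := by linarith
  set S := ∑ n ∈ Icc 1 N, pf α N n with hS
  -- the number of primes
  have hcount : (Nat.primeCounting N : ℝ) - (N : ℝ) ^ α ≤ S := by
    have e1 : (Nat.primeCounting N : ℝ) = ∑ n ∈ Icc 1 N, if n.Prime then (1 : ℝ) else 0 := by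
      rw [← sum_filter, sum_const, nsmul_eq_mul, mul_one]
      congr 1
      rw [Nat.primeCounting, Nat.primeCounting', Nat.count_eq_card_filter_range]
      congr 1
      ext n
      rw [mem_filter, mem_filter, mem_range, mem_Icc]
      constructor
      · rintro ⟨h4, h5⟩
        exact ⟨⟨h5.one_lt.le, by omega⟩, h5⟩
      · rintro ⟨h4, h5⟩
        exact ⟨by omega, h5⟩
    have e2 : ∑ n ∈ Icc 1 N, (if n.Prime then (1 : ℝ) else 0) - S ≤ (N : ℝ) ^ α := by
      rw [hS, ← sum_sub_distrib]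
      calc ∑ n ∈ Icc 1 N, ((if n.Prime then (1 : ℝ) else 0) - pf α N n)
          ≤ ∑ n ∈ Icc 1 N, (if n ∈ Icc 1 ⌊(N : ℝ) ^ α⌋₊ then (1 : ℝ) else 0) := by
            refine sum_le_sum fun n hn => ?_
            unfold pf
            rw [mem_Icc] at hn
            by_cases hp : n.Prime
            · by_cases hx : (N : ℝ) ^ α < n
              · rw [if_pos hp, if_pos ⟨hp, hx⟩]
                split_ifs <;> norm_num
              · rw [if_pos hp, if_neg (fun h => hx h.2), if_pos]
                · norm_num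
                · rw [mem_Icc]
                  refine ⟨hn.1, ?_⟩
                  rw [Nat.le_floor_iff (by positivity)]
                  exact not_lt.1 hx
            · rw [if_neg hp, if_neg (fun h => hp h.1)]
              split_ifs <;> norm_num
        _ = (((Icc 1 N).filter (fun n => n ∈ Icc 1 ⌊(N : ℝ) ^ α⌋₊)).card : ℝ) := by
            rw [← sum_filter, sum_const, nsmul_eq_mul, mul_one]
        _ ≤ ((Icc 1 ⌊(N : ℝ) ^ α⌋₊).card : ℝ) := by
            exact_mod_cast card_le_card (fun n hn => (mem_filter.1 hn).2)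
        _ ≤ (N : ℝ) ^ α := by
            rw [Nat.card_Icc, Nat.add_sub_cancel]
            exact Nat.floor_le (by positivity)
    linarith
  have hpi := Chebyshev.pi_ge N
  have hNα : (N : ℝ) ^ α * Real.log N ≤ N / 20 := by
    have h6 : Real.log N ≤ (N : ℝ) ^ η / η := Real.log_le_rpow_div hN0.le hη0
    have h7 : (N : ℝ) = (N : ℝ) ^ α * (N : ℝ) ^ η * (N : ℝ) ^ η := by
      rw [← Real.rpow_add hN0, ← Real.rpow_add hN0]
      have : α + η + η = 1 := by rw [hη]; ring
      rw [this, Real.rpow_one]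
    have h8 : Real.log N ≤ (N : ℝ) ^ η * (N : ℝ) ^ η / 40 := by
      refine h6.trans ?_
      rw [div_le_iff₀ hη0] at g1
      rw [div_le_div_iff₀ hη0 (by norm_num)]
      have : 0 < (N : ℝ) ^ η := by positivity
      nlinarith
    calc (N : ℝ) ^ α * Real.log N ≤ (N : ℝ) ^ α * ((N : ℝ) ^ η * (N : ℝ) ^ η / 40) := by gcongr
      _ = ((N : ℝ) ^ α * (N : ℝ) ^ η * (N : ℝ) ^ η) / 40 := by ring
      _ = N / 40 := by rw [← h7]
      _ ≤ _ := by linarith
  have hlogN1 : Real.log (N + 1) ≤ N / 20 := by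
    have h9 : Real.log (N + 1) ≤ 2 * Real.log N := by
      have : (N : ℝ) + 1 ≤ (N : ℝ) ^ 2 := by nlinarith
      calc Real.log (N + 1) ≤ Real.log ((N : ℝ) ^ 2) := Real.log_le_log (by positivity) this
        _ = 2 * Real.log N := by rw [Real.log_pow]; push_cast; ring
    have h10 : Real.log N ≤ (N : ℝ) ^ α * Real.log N / 2 := by
      have h11 : (2 : ℝ) ≤ (N : ℝ) ^ α := by
        calc (2 : ℝ) ≤ Real.sqrt N := by
              apply Real.le_sqrt_of_sq_le
              linarith
          _ = (N : ℝ) ^ (1 / 2 : ℝ) := Real.sqrt_eq_rpow _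
          _ ≤ _ := Real.rpow_le_rpow_of_exponent_le hN1r hα.le
      nlinarith
    linarith
  have hSlow : (N : ℝ) / (2 * Real.log N) ≤ S := by
    refine le_trans ?_ hcount
    have h12 : (N : ℝ) / (2 * Real.log N) + (N : ℝ) ^ α ≤ (N * Real.log 2 - Real.log (N + 1)) / Real.log N := by
      rw [le_div_iff₀ hlog0]
      have h13 := Real.log_two_gt_d9
      have h14 : ((N : ℝ) / (2 * Real.log N) + (N : ℝ) ^ α) * Real.log N = N / 2 + (N : ℝ) ^ α * Real.log N := by
        field_simp
      rw [h14]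
      nlinarith
    linarith
  have hSpos : 0 < S := lt_of_lt_of_le (by positivity) hSlow
  refine ⟨by omega, hSlow, ?_, ?_⟩
  · have h15 : ∑ n ∈ Icc 1 N, pf α N n ^ 2 = S := by
      rw [hS]
      refine sum_congr rfl fun n _ => ?_
      unfold pf
      split_ifs <;> norm_num
    rw [h15]
    have h16 : (N : ℝ) ≤ (N : ℝ) ^ κ * S := by
      have h17 : 2 * Real.log N ≤ (N : ℝ) ^ κ := by
        have h18 : Real.log N ≤ (N : ℝ) ^ (κ / 2) / (κ / 2) := Real.log_le_rpow_div hN0.le (by positivity)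
        have h19 : (N : ℝ) ^ κ = (N : ℝ) ^ (κ / 2) * (N : ℝ) ^ (κ / 2) := by
          rw [← Real.rpow_add hN0]
          congr 1
          ring
        rw [h19]
        calc 2 * Real.log N ≤ 2 * ((N : ℝ) ^ (κ / 2) / (κ / 2)) := by linarith
          _ = (N : ℝ) ^ (κ / 2) * (2 / (κ / 2)) := by ring
          _ ≤ _ := mul_le_mul_of_nonneg_left g2 (by positivity)
      calc (N : ℝ) = 2 * Real.log N * (N / (2 * Real.log N)) := by field_simp
        _ ≤ (N : ℝ) ^ κ * S := by
            apply mul_le_mul h17 hSlow (by positivity) (by positivity)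
    calc (N : ℝ) * S ≤ ((N : ℝ) ^ κ * S) * S := by gcongr
      _ = _ := by ring
  · have h20 : Real.sqrt (Real.log N) ≤ (N : ℝ) ^ (η / 2) * (1 / (η / 2) + 1) := by
      have h21 : Real.log N ≤ (N : ℝ) ^ (η / 2) / (η / 2) := Real.log_le_rpow_div hN0.le (by positivity)
      have h22 : Real.sqrt (Real.log N) ≤ Real.log N := by
        rw [Real.sqrt_le_left hlog0.le]
        nlinarith
      have h23 : 0 < (N : ℝ) ^ (η / 2) := by positivity
      calc Real.sqrt (Real.log N) ≤ (N : ℝ) ^ (η / 2) / (η / 2) := h22.trans h21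
        _ = (N : ℝ) ^ (η / 2) * (1 / (η / 2)) := by ring
        _ ≤ _ := mul_le_mul_of_nonneg_left (by linarith) h23.le
    have hsl : 0 < Real.sqrt (Real.log N) := Real.sqrt_pos.2 hlog0
    have h24 : (N : ℝ) ^ η = (N : ℝ) ^ (η / 2) * (N : ℝ) ^ (η / 2) := by
      rw [← Real.rpow_add hN0]
      congr 1
      ring
    rw [div_mul_div_comm, le_div_iff₀ (by positivity)]
    have h25 : 0 < 1 / (η / 2) + 1 := by positivity
    calc 10 * (4 * Real.sqrt (Real.log N)) = 40 * Real.sqrt (Real.log N) := by ring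
      _ ≤ 40 * ((N : ℝ) ^ (η / 2) * (1 / (η / 2) + 1)) := by gcongr
      _ = Real.sqrt (α - 1 / 2) * ((N : ℝ) ^ (η / 2) *
            (40 / Real.sqrt (α - 1 / 2) * (1 / (η / 2) + 1))) := by
          have e : Real.sqrt (α - 1 / 2) * (40 / Real.sqrt (α - 1 / 2)) = 40 :=
            mul_div_cancel₀ _ hsq.ne'
          calc 40 * ((N : ℝ) ^ (η / 2) * (1 / (η / 2) + 1)) =
                (Real.sqrt (α - 1 / 2) * (40 / Real.sqrt (α - 1 / 2))) *
                  ((N : ℝ) ^ (η / 2) * (1 / (η / 2) + 1)) := by rw [e]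
            _ = _ := by ring
      _ ≤ Real.sqrt (α - 1 / 2) * ((N : ℝ) ^ (η / 2) * (N : ℝ) ^ (η / 2)) := by gcongr
      _ = _ := by rw [← h24]

/-- the number of primes in a residue class -/
noncomputable def pAP (N d l : ℕ) : ℝ := (((Icc 1 N).filter (fun p => p.Prime ∧ p ≡ l [MOD d])).card : ℝ)

theorem pAP_close (α : ℝ) (N d l : ℕ) (hd : (N : ℝ) ^ α / 4 < d) :
    |pAP N d l - cF (pf α N) N d l| ≤ 5 := by
  classical
  have hd0 : (0 : ℝ) < d := lt_of_le_of_lt (by positivity) hd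
  have hd1 : 0 < d := by exact_mod_cast hd0
  set M := ⌊(N : ℝ) ^ α⌋₊ with hM
  have e1 : pAP N d l = ∑ n ∈ (Icc 1 N).filter (fun n => n ≡ l [MOD d]), if n.Prime then (1 : ℝ) else 0 := by
    unfold pAP
    rw [← sum_filter, sum_const, nsmul_eq_mul, mul_one, filter_filter]
    congr 2
    ext n
    simp only [mem_filter]
    tauto
  have e2 : ∀ n ∈ (Icc 1 N).filter (fun n => n ≡ l [MOD d]),
      0 ≤ (if n.Prime then (1 : ℝ) else 0) - pf α N n ∧
      (if n.Prime then (1 : ℝ) else 0) - pf α N n ≤ if n ∈ Icc 1 M then (1 : ℝ) else 0 := by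
    intro n hn
    rw [mem_filter, mem_Icc] at hn
    unfold pf
    by_cases hp : n.Prime
    · by_cases hx : (N : ℝ) ^ α < n
      · rw [if_pos hp, if_pos ⟨hp, hx⟩]
        split_ifs <;> norm_num
      · rw [if_pos hp, if_neg (fun h => hx h.2), if_pos]
        · norm_num
        · rw [mem_Icc]
          refine ⟨hn.1.1, ?_⟩
          rw [hM, Nat.le_floor_iff (by positivity)]
          exact not_lt.1 hx
    · rw [if_neg hp, if_neg (fun h => hp h.1)]
      split_ifs <;> norm_num
  have e3 : pAP N d l - cF (pf α N) N d l = ∑ n ∈ (Icc 1 N).filter (fun n => n ≡ l [MOD d]),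
      ((if n.Prime then (1 : ℝ) else 0) - pf α N n) := by
    rw [e1]
    unfold cF
    rw [sum_sub_distrib]
  rw [e3, abs_of_nonneg (sum_nonneg fun n hn => (e2 n hn).1)]
  calc ∑ n ∈ (Icc 1 N).filter (fun n => n ≡ l [MOD d]), ((if n.Prime then (1 : ℝ) else 0) - pf α N n)
      ≤ ∑ n ∈ (Icc 1 N).filter (fun n => n ≡ l [MOD d]), (if n ∈ Icc 1 M then (1 : ℝ) else 0) :=
        sum_le_sum fun n hn => (e2 n hn).2
    _ = (((Icc 1 N).filter (fun n => n ≡ l [MOD d])).filter (fun n => n ∈ Icc 1 M)).card := by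
        rw [← sum_filter, sum_const, nsmul_eq_mul, mul_one]
    _ ≤ (((Ioc 0 M).filter (fun n => n ≡ l [MOD d])).card : ℝ) := by
        have : ((Icc 1 N).filter (fun n => n ≡ l [MOD d])).filter (fun n => n ∈ Icc 1 M) ⊆
            (Ioc 0 M).filter (fun n => n ≡ l [MOD d]) := by
          intro n hn
          rw [mem_filter, mem_filter, mem_Icc, mem_Icc] at hn
          rw [mem_filter, mem_Ioc]
          exact ⟨⟨by omega, hn.2.2⟩, hn.1.2⟩
        exact_mod_cast card_le_card this
    _ ≤ 5 := by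
        have h1 : (((Ioc 0 M).filter (fun n => n ≡ l [MOD d])).card : ℝ) ≤ M / d + 1 := by
          have h2 := Nat.Ioc_filter_modEq_card 0 M hd1 l
          have h3 : ((((Ioc 0 M).filter (fun n => n ≡ l [MOD d])).card : ℤ) : ℝ) ≤ M / d + 1 := by
            rw [h2]
            push_cast
            have h4 : (⌊((M : ℚ) - l) / d⌋ : ℝ) ≤ ((M : ℝ) - l) / d := by
              have := Int.floor_le (((M : ℚ) - l) / d)
              exact_mod_cast this
            have h5 : ((0 : ℝ) - l) / d - 1 < (⌊(((0 : ℕ) : ℚ) - l) / d⌋ : ℝ) := by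
              have := Int.lt_floor_add_one ((((0 : ℕ) : ℚ) - l) / d)
              have h6 : ((((0 : ℕ) : ℚ) - l) / d : ℚ) < (⌊(((0 : ℕ) : ℚ) - l) / d⌋ : ℚ) + 1 := this
              have h7 : ((((((0 : ℕ) : ℚ) - l) / d : ℚ)) : ℝ) < (⌊(((0 : ℕ) : ℚ) - l) / d⌋ : ℝ) + 1 := by
                exact_mod_cast h6
              push_cast at h7
              push_cast
              linarith
            push_cast at h5
            have h8 : ((M : ℝ) - l) / d = M / d + (0 - l) / d := by ring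
            have h9 : (0 : ℝ) ≤ M / d := by positivity
            apply max_le _ (by positivity)
            linarith
          exact_mod_cast h3
        have h2 : (M : ℝ) ≤ (N : ℝ) ^ α := Nat.floor_le (by positivity)
        have h3 : (M : ℝ) / d ≤ 4 := by
          rw [div_le_iff₀ hd0]
          linarith
        linarith

end Pool.Agent.H535.LB
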