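import Pool.Agent.H535.LB.Core

set_option autoImplicit false

/-!
# The large sieve with the leading constant one
-/

open Finset

namespace Pool.Agent.H535.LB

open Pool.Agent.Helper112 Pool.Agent.W110.HV

/-- the sum of the kernels at spaced points, without the point itself -/
theorem spaced_ne {ι : Type*} [DecidableEq ι] (R : Finset ι) (ξ : ι → ℝ) (K N : ℕ) (hK : 1 ≤ K)
    (hsep : ∀ r ∈ R, ∀ s ∈ R, r ≠ s → lsSep K (ξ s - ξ r)) (r : ι) (hr : r ∈ R) :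
    ∑ s ∈ R.erase r, ‖lsD N (ξ s - ξ r)‖ ≤ K * (2 + Real.log K) := by
  have hK0 : (0 : ℝ) < K := by exact_mod_cast hK
  set y := ξ r with hy
  set k : ι → ℕ := fun s => ⌊(K : ℝ) * Int.fract (ξ s - y)⌋₊ with hk
  have hkK : ∀ s, k s < K := by
    intro s
    rw [hk, Nat.floor_lt (mul_nonneg hK0.le (Int.fract_nonneg _))]
    have := Int.fract_lt_one (ξ s - y)
    nlinarith
  have hinj : Set.InjOn k (R.erase r) := by
    intro s hs s' hs' heq
    by_contra hne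
    have hsp := hsep s (mem_of_mem_erase hs) s' (mem_of_mem_erase hs') hne
    set t := Int.fract (ξ s - y) with ht
    set t' := Int.fract (ξ s' - y) with ht'
    have e0 : 0 ≤ t := Int.fract_nonneg _
    have e0' : 0 ≤ t' := Int.fract_nonneg _
    have e1 : (k s : ℝ) ≤ K * t := Nat.floor_le (by positivity)
    have e2 : (K : ℝ) * t < k s + 1 := Nat.lt_floor_add_one _
    have e3 : (k s' : ℝ) ≤ K * t' := Nat.floor_le (by positivity)
    have e4 : (K : ℝ) * t' < k s' + 1 := Nat.lt_floor_add_one _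
    rw [heq] at e1 e2
    have e5 : (K : ℝ) * (t' - t) < 1 := by linarith
    have e6 : -1 < (K : ℝ) * (t' - t) := by linarith
    have e7 : t' - t < 1 / K := by
      rw [lt_div_iff₀ hK0]
      linarith
    have e8 : -(1 / (K : ℝ)) < t' - t := by
      rw [neg_lt, lt_div_iff₀ hK0]
      linarith
    have e9 : ξ s' - ξ s = (t' - t) + ((⌊ξ s' - y⌋ - ⌊ξ s - y⌋ : ℤ) : ℝ) := by
      have a1 := Int.fract_add_floor (ξ s - y)
      have a2 := Int.fract_add_floor (ξ s' - y)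
      rw [← ht] at a1
      rw [← ht'] at a2
      push_cast
      linarith
    have e10 : Int.fract (ξ s' - ξ s) = Int.fract (t' - t) := by
      rw [e9, Int.fract_add_intCast]
    unfold lsSep at hsp
    rw [e10] at hsp
    have h1K : 1 / (K : ℝ) ≤ 1 := by
      rw [div_le_one hK0]
      exact_mod_cast hK
    rcases le_or_gt 0 (t' - t) with h | h
    · have : Int.fract (t' - t) = t' - t := by
        rw [Int.fract_eq_self]
        exact ⟨h, by linarith⟩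
      rw [this] at hsp
      linarith [hsp.1]
    · have : Int.fract (t' - t) = t' - t + 1 := by
        rw [Int.fract_eq_iff]
        exact ⟨by linarith, by linarith, ⟨-1, by push_cast; ring⟩⟩
      rw [this] at hsp
      linarith [hsp.2]
  set B : ℕ → ℝ := fun j => (if j = K - 1 then (K : ℝ) / 2 else 0) +
    (K / 2 * (1 / (j : ℝ)) + K / 2 * (1 / ((K - 1 - j : ℕ) : ℝ))) with hB
  have hB0 : ∀ j, 0 ≤ B j := by
    intro j
    simp only [hB]
    have h2 : (0 : ℝ) ≤ if j = K - 1 then (K : ℝ) / 2 else 0 := by split_ifs <;> positivity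
    positivity
  have hle : ∀ s ∈ R.erase r, ‖lsD N (ξ s - y)‖ ≤ B (k s) := by
    intro s hs
    rw [mem_erase] at hs
    have hsp := hsep r hr s hs.2 (fun e => hs.1 e.symm)
    unfold lsSep at hsp
    rw [← hy] at hsp
    have hks := hkK s
    set t := Int.fract (ξ s - y) with ht
    have e0 : 0 ≤ t := Int.fract_nonneg _
    have e1 : (k s : ℝ) ≤ K * t := Nat.floor_le (by positivity)
    have e2 : (K : ℝ) * t < k s + 1 := Nat.lt_floor_add_one _
    have hKt : 1 ≤ (K : ℝ) * t := by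
      have := hsp.1
      rw [div_le_iff₀ hK0] at this
      linarith
    have hk1' : 1 ≤ k s := Nat.one_le_iff_ne_zero.2 (Nat.floor_pos.2 hKt).ne'
    have hk1 : (1 : ℝ) ≤ k s := by exact_mod_cast hk1'
    have ht0 : 0 < t := by
      by_contra hcon
      have : t = 0 := by linarith
      rw [this, mul_zero] at e1
      linarith
    have hinvK : 0 < 1 / (K : ℝ) := by positivity
    have ht1 : 0 < 1 - t := by linarith [hsp.2]
    have h2 := lsD_bound N t ht0 (by linarith)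
    rw [lsD_fract] at h2
    have h3 : ‖lsD N (ξ s - y)‖ ≤ 1 / 2 * (1 / t + 1 / (1 - t)) := by
      apply le_of_sq_le_sq _ (by positivity)
      refine h2.trans ?_
      have a1 : 0 < 1 / t := by positivity
      have a2 : 0 < 1 / (1 - t) := by positivity
      have e3 : 1 / t ^ 2 = (1 / t) ^ 2 := by rw [one_div_pow]
      have e4 : 1 / (1 - t) ^ 2 = (1 / (1 - t)) ^ 2 := by rw [one_div_pow]
      rw [e3, e4]
      nlinarith [mul_pos a1 a2]
    have h4 : 1 / t ≤ K * (1 / (k s : ℝ)) := by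
      rw [mul_one_div, div_le_div_iff₀ ht0 (by linarith)]
      linarith
    simp only [hB]
    by_cases h1 : k s = K - 1
    · rw [if_pos h1]
      have h5 : 1 / (1 - t) ≤ K := by
        rw [div_le_iff₀ ht1]
        have := hsp.2
        have h6 : 1 / (K : ℝ) ≤ 1 - t := by linarith
        rw [div_le_iff₀ hK0] at h6
        linarith
      have h7 : 0 ≤ K / 2 * (1 / ((K - 1 - k s : ℕ) : ℝ)) := by positivity
      linarith
    · rw [if_neg h1]
      have hk2 : ((K - 1 - k s : ℕ) : ℝ) = K - 1 - k s := by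
        rw [Nat.cast_sub (by omega), Nat.cast_sub hK]
        push_cast
        ring
      have hk3 : (1 : ℝ) ≤ ((K - 1 - k s : ℕ) : ℝ) := by exact_mod_cast (by omega : 1 ≤ K - 1 - k s)
      have h5 : 1 / (1 - t) ≤ K * (1 / ((K - 1 - k s : ℕ) : ℝ)) := by
        rw [mul_one_div, div_le_div_iff₀ ht1 (by linarith), hk2]
        nlinarith
      linarith
  have hsum : ∑ j ∈ range K, B j ≤ K * (2 + Real.log K) := by
    simp only [hB]
    rw [sum_add_distrib, sum_add_distrib, ← mul_sum, ← mul_sum, sum_ite_eq',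
      if_pos (mem_range.2 (by omega))]
    have h1 := harm_range K hK
    have h2 : ∑ j ∈ range K, 1 / ((K - 1 - j : ℕ) : ℝ) = ∑ j ∈ range K, 1 / (j : ℝ) :=
      sum_range_reflect (fun j : ℕ => 1 / (j : ℝ)) K
    rw [h2]
    have h3 : (K : ℝ) / 2 * ∑ j ∈ range K, 1 / (j : ℝ) ≤ K / 2 * (1 + Real.log K) :=
      mul_le_mul_of_nonneg_left h1 (by positivity)
    nlinarith
  calc ∑ s ∈ R.erase r, ‖lsD N (ξ s - y)‖ ≤ ∑ s ∈ R.erase r, B (k s) := sum_le_sum hle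
    _ = ∑ j ∈ (R.erase r).image k, B j := by rw [sum_image hinj]
    _ ≤ ∑ j ∈ range K, B j := by
        apply sum_le_sum_of_subset_of_nonneg
        · intro j hj
          rw [mem_image] at hj
          obtain ⟨s, _, rfl⟩ := hj
          exact mem_range.2 (hkK s)
        · intro j _ _
          exact hB0 j
    _ ≤ _ := hsum

/-- the large sieve with the leading constant one -/
theorem ls_sharp {ι : Type*} [DecidableEq ι] (R : Finset ι) (ξ : ι → ℝ) (K N : ℕ) (hK : 1 ≤ K)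
    (hsep : ∀ r ∈ R, ∀ s ∈ R, r ≠ s → lsSep K (ξ s - ξ r)) (c : ι → ℂ) :
    ∑ n ∈ Icc (1 : ℤ) N, ‖∑ r ∈ R, c r * ee (n * ξ r)‖ ^ 2 ≤
      ((N : ℝ) + K * (2 + Real.log K)) * ∑ r ∈ R, ‖c r‖ ^ 2 := by
  have h1 : ((∑ n ∈ Icc (1 : ℤ) N, ‖∑ r ∈ R, c r * ee (n * ξ r)‖ ^ 2 : ℝ) : ℂ) =
      ∑ r ∈ R, ∑ s ∈ R, c r * (starRingEnd ℂ) (c s) * ∑ n ∈ Icc (1 : ℤ) N, ee (n * (ξ r - ξ s)) := by
    rw [Complex.ofReal_sum]
    have : ∀ n ∈ Icc (1 : ℤ) N, ((‖∑ r ∈ R, c r * ee (n * ξ r)‖ ^ 2 : ℝ) : ℂ) =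
        ∑ r ∈ R, ∑ s ∈ R, c r * (starRingEnd ℂ) (c s) * ee (n * (ξ r - ξ s)) := by
      intro n _
      rw [← mul_conj_norm, map_sum, sum_mul_sum]
      refine sum_congr rfl fun r _ => sum_congr rfl fun s _ => ?_
      rw [map_mul, ls_conj_ee]
      have : ee ((n : ℝ) * (ξ r - ξ s)) = ee (n * ξ r) * ee (-(n * ξ s)) := by
        rw [← ls_ee_add]
        congr 1
        ring
      rw [this]
      ring
    rw [sum_congr rfl this, sum_comm]
    refine sum_congr rfl fun r _ => ?_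
    rw [sum_comm]
    refine sum_congr rfl fun s _ => ?_
    rw [mul_sum]
  have h2 : ∑ n ∈ Icc (1 : ℤ) N, ‖∑ r ∈ R, c r * ee (n * ξ r)‖ ^ 2 ≤
      ∑ r ∈ R, ∑ s ∈ R, ‖c r‖ * ‖c s‖ * ‖lsD N (ξ r - ξ s)‖ := by
    have h3 : (0 : ℝ) ≤ ∑ n ∈ Icc (1 : ℤ) N, ‖∑ r ∈ R, c r * ee (n * ξ r)‖ ^ 2 :=
      sum_nonneg fun _ _ => by positivity
    have h4 : ‖((∑ n ∈ Icc (1 : ℤ) N, ‖∑ r ∈ R, c r * ee (n * ξ r)‖ ^ 2 : ℝ) : ℂ)‖ =
        ∑ n ∈ Icc (1 : ℤ) N, ‖∑ r ∈ R, c r * ee (n * ξ r)‖ ^ 2 := by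
      rw [Complex.norm_real, Real.norm_eq_abs, abs_of_nonneg h3]
    rw [← h4, h1]
    refine (norm_sum_le _ _).trans (sum_le_sum fun r _ => (norm_sum_le _ _).trans
      (sum_le_sum fun s _ => ?_))
    rw [norm_mul, norm_mul, RCLike.norm_conj, norm_ES_one]
  refine h2.trans ?_
  have hsymm : ∀ r s : ι, ‖lsD N (ξ r - ξ s)‖ = ‖lsD N (ξ s - ξ r)‖ := by
    intro r s
    rw [← norm_ES_one, ← norm_ES_one]
    rw [← RCLike.norm_conj, map_sum]
    congr 1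
    refine sum_congr rfl fun n _ => ?_
    rw [ls_conj_ee]
    congr 1
    ring
  have h3 : ∀ r ∈ R, ∀ s ∈ R, ‖c r‖ * ‖c s‖ * ‖lsD N (ξ r - ξ s)‖ ≤
      (1 / 2) * (‖c r‖ ^ 2 * ‖lsD N (ξ s - ξ r)‖) + (1 / 2) * (‖c s‖ ^ 2 * ‖lsD N (ξ r - ξ s)‖) := by
    intro r _ s _
    rw [hsymm s r]
    have h5 : 0 ≤ ‖lsD N (ξ r - ξ s)‖ := norm_nonneg _
    have h6 : ‖c r‖ * ‖c s‖ ≤ (1 / 2) * ‖c r‖ ^ 2 + (1 / 2) * ‖c s‖ ^ 2 := by
      nlinarith [sq_nonneg (‖c r‖ - ‖c s‖)]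
    calc ‖c r‖ * ‖c s‖ * ‖lsD N (ξ r - ξ s)‖
        ≤ ((1 / 2) * ‖c r‖ ^ 2 + (1 / 2) * ‖c s‖ ^ 2) * ‖lsD N (ξ r - ξ s)‖ :=
          mul_le_mul_of_nonneg_right h6 h5
      _ = _ := by ring
  have h4 : ∀ r ∈ R, ∑ s ∈ R, ‖lsD N (ξ s - ξ r)‖ ≤ N + K * (2 + Real.log K) := by
    intro r hr
    rw [← add_sum_erase R _ hr]
    have h5 := spaced_ne R ξ K N hK hsep r hr
    have h6 := lsD_le N (ξ r - ξ r)
    linarith
  calc ∑ r ∈ R, ∑ s ∈ R, ‖c r‖ * ‖c s‖ * ‖lsD N (ξ r - ξ s)‖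
      ≤ ∑ r ∈ R, ∑ s ∈ R, ((1 / 2) * (‖c r‖ ^ 2 * ‖lsD N (ξ s - ξ r)‖) +
          (1 / 2) * (‖c s‖ ^ 2 * ‖lsD N (ξ r - ξ s)‖)) :=
        sum_le_sum fun r hr => sum_le_sum fun s hs => h3 r hr s hs
    _ = ∑ r ∈ R, ‖c r‖ ^ 2 * ∑ s ∈ R, ‖lsD N (ξ s - ξ r)‖ := by
        simp_rw [sum_add_distrib]
        have e1 : ∑ r ∈ R, ∑ s ∈ R, 1 / 2 * (‖c s‖ ^ 2 * ‖lsD N (ξ r - ξ s)‖) =
            ∑ r ∈ R, ∑ s ∈ R, 1 / 2 * (‖c r‖ ^ 2 * ‖lsD N (ξ s - ξ r)‖) := sum_comm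
        rw [e1, ← sum_add_distrib]
        refine sum_congr rfl fun r _ => ?_
        rw [← sum_add_distrib, mul_sum]
        refine sum_congr rfl fun s _ => ?_
        ring
    _ ≤ ∑ r ∈ R, ‖c r‖ ^ 2 * (N + K * (2 + Real.log K)) :=
        sum_le_sum fun r hr => mul_le_mul_of_nonneg_left (h4 r hr) (by positivity)
    _ = _ := by
        rw [← sum_mul, mul_comm]

theorem gg_l2s (B : ℕ → ℤ) (P R N : ℕ) (hR : 1 ≤ R) :
    ∑ n ∈ Icc (1 : ℤ) N, ‖gg B P R n‖ ^ 2 ≤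
      ((N : ℝ) + (R : ℝ) ^ 2 * (2 + 2 * Real.log R)) * H343.LL P R := by
  set S : Finset (Σ _ : ℕ, ℕ) :=
    (H343.Mod P R).sigma (fun f => (range f).filter (fun a => a.Coprime f)) with hS
  set ξ : (Σ _ : ℕ, ℕ) → ℝ := fun r => (r.2 : ℝ) / r.1 with hξ
  have hsep : ∀ r ∈ S, ∀ s ∈ S, r ≠ s → lsSep (R ^ 2) (ξ s - ξ r) := by
    rintro ⟨f, a⟩ hr ⟨f', a'⟩ hs hne
    rw [hS, mem_sigma, mem_filter, mem_range] at hr hs
    dsimp only at hr hs
    obtain ⟨h1, h2, h3⟩ := mem_Mod hr.1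
    obtain ⟨h1', h2', h3'⟩ := mem_Mod hs.1
    have g1 : 1 ≤ f := by omega
    have g1' : 1 ≤ f' := by omega
    refine ls_sep_of_int R f f' g1 g1' h2 h2' a a' hr.2.1 hs.2.1 hr.2.2 hs.2.2 ?_
    rintro ⟨h4, h5⟩
    subst h4
    subst h5
    exact hne rfl
  have h := ls_sharp S ξ (R ^ 2) N (Nat.one_le_pow _ _ hR) hsep (fun r => cc B r.1 r.2)
  have e1 : ∀ n : ℤ, ∑ r ∈ S, cc B r.1 r.2 * ee (n * ξ r) = gg B P R n := by
    intro n
    rw [hS, sum_sigma]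
    unfold gg
    refine sum_congr rfl fun r _ => sum_congr rfl fun a _ => ?_
    simp only [hξ]
  have e2 : ∑ r ∈ S, ‖cc B r.1 r.2‖ ^ 2 = H343.LL P R := by
    rw [hS, sum_sigma]
    unfold H343.LL
    refine sum_congr rfl fun r hr => ?_
    obtain ⟨h1, h2, h3⟩ := mem_Mod hr
    simp only [norm_cc B r _ h3]
    rw [sum_const, card_cop, nsmul_eq_mul]
    have : (Nat.totient r : ℝ) ≠ 0 := by
      have := Nat.totient_pos.2 (by omega : 0 < r)
      positivity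
    field_simp
  rw [e2] at h
  simp only [e1] at h
  push_cast at h
  rw [Real.log_pow] at h
  push_cast at h
  exact h

end Pool.Agent.H535.LB
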