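import Pool.Graph.R_seed8.W110.HV.Prep
import Pool.Graph.R_seed8.W110.HV.Rama

set_option autoImplicit false

/-!
# Sums of Dirichlet kernels at well spaced points
-/

open Finset

namespace Pool.Agent.H535.LB

open Pool.Agent.Helper112 Pool.Agent.W110.HV

theorem harm_range (K : ℕ) (hK : 1 ≤ K) : ∑ k ∈ range K, (1 / (k : ℝ)) ≤ 1 + Real.log K := by
  refine le_trans ?_ (harm_le K hK)
  obtain ⟨m, rfl⟩ : ∃ m, K = m + 1 := ⟨K - 1, by omega⟩
  rw [sum_range_succ']
  simp only [Nat.cast_zero, div_zero, add_zero]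
  have h1 : ∑ k ∈ range m, (1 / ((k + 1 : ℕ) : ℝ)) = ∑ k ∈ Ico 1 (m + 1), (1 / (k : ℝ)) := by
    rw [sum_Ico_eq_sum_range]
    exact sum_congr (by simp) fun k _ => by rw [add_comm]
  rw [h1]
  apply sum_le_sum_of_subset_of_nonneg
  · intro k hk
    rw [mem_Ico] at hk
    exact mem_Icc.2 ⟨hk.1, hk.2.le⟩
  · intro k _ _
    positivity

/-- the sum of the kernels at spaced points -/
theorem spaced {ι : Type*} (R : Finset ι) (ξ : ι → ℝ) (K N : ℕ) (hK : 1 ≤ K)
    (hsep : ∀ r ∈ R, ∀ s ∈ R, r ≠ s → lsSep K (ξ s - ξ r)) (y : ℝ) :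
    ∑ s ∈ R, ‖lsD N (ξ s - y)‖ ≤ 2 * N + K * (1 + Real.log K) := by
  have hK0 : (0 : ℝ) < K := by exact_mod_cast hK
  set k : ι → ℕ := fun s => ⌊(K : ℝ) * Int.fract (ξ s - y)⌋₊ with hk
  have hkK : ∀ s, k s < K := by
    intro s
    rw [hk, Nat.floor_lt (mul_nonneg hK0.le (Int.fract_nonneg _))]
    have := Int.fract_lt_one (ξ s - y)
    nlinarith
  have hinj : Set.InjOn k R := by
    intro s hs s' hs' heq
    by_contra hne
    have hsp := hsep s hs s' hs' hne
    set t := Int.fract (ξ s - y) with ht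
    set t' := Int.fract (ξ s' - y) with ht'
    have e0 : 0 ≤ t := Int.fract_nonneg _
    have e0' : 0 ≤ t' := Int.fract_nonneg _
    have e1 : (k s : ℝ) ≤ K * t := Nat.floor_le (by positivity)
    have e2 : (K : ℝ) * t < k s + 1 := Nat.lt_floor_add_one _
    have e3 : (k s' : ℝ) ≤ K * t' := Nat.floor_le (by positivity)
    have e4 : (K : ℝ) * t' < k s' + 1 := Nat.lt_floor_add_one _
    rw [heq] at e1 e2
    have e5 : (K : ℝ) * (t' - t) < 1 := by linarith
    have e6 : -1 < (K : ℝ) * (t' - t) := by linarith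
    have e7 : t' - t < 1 / K := by
      rw [lt_div_iff₀ hK0]
      linarith
    have e8 : -(1 / (K : ℝ)) < t' - t := by
      rw [neg_lt, lt_div_iff₀ hK0]
      linarith
    have e9 : ξ s' - ξ s = (t' - t) + ((⌊ξ s' - y⌋ - ⌊ξ s - y⌋ : ℤ) : ℝ) := by
      have a1 := Int.fract_add_floor (ξ s - y)
      have a2 := Int.fract_add_floor (ξ s' - y)
      rw [← ht] at a1
      rw [← ht'] at a2
      push_cast
      linarith
    have e10 : Int.fract (ξ s' - ξ s) = Int.fract (t' - t) := by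
      rw [e9, Int.fract_add_intCast]
    unfold lsSep at hsp
    rw [e10] at hsp
    have h1K : 1 / (K : ℝ) ≤ 1 := by
      rw [div_le_one hK0]
      exact_mod_cast hK
    rcases le_or_gt 0 (t' - t) with h | h
    · have : Int.fract (t' - t) = t' - t := by
        rw [Int.fract_eq_self]
        exact ⟨h, by linarith⟩
      rw [this] at hsp
      linarith [hsp.1]
    · have : Int.fract (t' - t) = t' - t + 1 := by
        rw [Int.fract_eq_iff]
        exact ⟨by linarith, by linarith, ⟨-1, by push_cast; ring⟩⟩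
      rw [this] at hsp
      linarith [hsp.2]
  set B : ℕ → ℝ := fun j => (if j = 0 then (N : ℝ) else 0) + (if j = K - 1 then (N : ℝ) else 0) +
    (K / 2 * (1 / (j : ℝ)) + K / 2 * (1 / ((K - 1 - j : ℕ) : ℝ))) with hB
  have hB0 : ∀ j, 0 ≤ B j := by
    intro j
    simp only [hB]
    have h1 : (0 : ℝ) ≤ if j = 0 then (N : ℝ) else 0 := by split_ifs <;> positivity
    have h2 : (0 : ℝ) ≤ if j = K - 1 then (N : ℝ) else 0 := by split_ifs <;> positivity
    positivity
  have hle : ∀ s ∈ R, ‖lsD N (ξ s - y)‖ ≤ B (k s) := by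
    intro s _
    have hN := lsD_le N (ξ s - y)
    by_cases h0 : k s = 0
    · simp only [hB]
      rw [if_pos h0]
      have h2 : (0 : ℝ) ≤ if k s = K - 1 then (N : ℝ) else 0 := by split_ifs <;> positivity
      have h3 : 0 ≤ K / 2 * (1 / (k s : ℝ)) + K / 2 * (1 / ((K - 1 - k s : ℕ) : ℝ)) := by positivity
      linarith
    by_cases h1 : k s = K - 1
    · simp only [hB]
      rw [if_pos h1]
      have h2 : (0 : ℝ) ≤ if k s = 0 then (N : ℝ) else 0 := by split_ifs <;> positivity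
      have h3 : 0 ≤ K / 2 * (1 / (k s : ℝ)) + K / 2 * (1 / ((K - 1 - k s : ℕ) : ℝ)) := by positivity
      linarith
    have hks := hkK s
    set t := Int.fract (ξ s - y) with ht
    have e0 : 0 ≤ t := Int.fract_nonneg _
    have e1 : (k s : ℝ) ≤ K * t := Nat.floor_le (by positivity)
    have e2 : (K : ℝ) * t < k s + 1 := Nat.lt_floor_add_one _
    have hk1 : (1 : ℝ) ≤ k s := by exact_mod_cast (by omega : 1 ≤ k s)
    have hk2 : ((K - 1 - k s : ℕ) : ℝ) = K - 1 - k s := by
      rw [Nat.cast_sub (by omega), Nat.cast_sub hK]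
      push_cast
      ring
    have hk3 : (1 : ℝ) ≤ ((K - 1 - k s : ℕ) : ℝ) := by exact_mod_cast (by omega : 1 ≤ K - 1 - k s)
    have ht0 : 0 < t := by
      by_contra hcon
      have : t = 0 := by linarith
      rw [this, mul_zero] at e1
      linarith
    have ht1 : 0 < 1 - t := by
      have := Int.fract_lt_one (ξ s - y)
      rw [← ht] at this
      linarith
    have h2 := lsD_bound N t ht0 (by linarith)
    rw [lsD_fract] at h2
    have h3 : ‖lsD N (ξ s - y)‖ ≤ 1 / 2 * (1 / t + 1 / (1 - t)) := by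
      apply le_of_sq_le_sq _ (by positivity)
      refine h2.trans ?_
      have a1 : 0 < 1 / t := by positivity
      have a2 : 0 < 1 / (1 - t) := by positivity
      have e3 : 1 / t ^ 2 = (1 / t) ^ 2 := by rw [one_div_pow]
      have e4 : 1 / (1 - t) ^ 2 = (1 / (1 - t)) ^ 2 := by rw [one_div_pow]
      rw [e3, e4]
      nlinarith [mul_pos a1 a2]
    have h4 : 1 / t ≤ K * (1 / (k s : ℝ)) := by
      rw [mul_one_div, div_le_div_iff₀ ht0 (by linarith)]
      linarith
    have h5 : 1 / (1 - t) ≤ K * (1 / ((K - 1 - k s : ℕ) : ℝ)) := by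
      rw [mul_one_div, div_le_div_iff₀ ht1 (by linarith), hk2]
      nlinarith
    simp only [hB]
    rw [if_neg h0, if_neg h1]
    linarith
  have hsum : ∑ j ∈ range K, B j ≤ 2 * N + K * (1 + Real.log K) := by
    simp only [hB]
    rw [sum_add_distrib, sum_add_distrib, sum_add_distrib, ← mul_sum, ← mul_sum, sum_ite_eq', sum_ite_eq',
      if_pos (mem_range.2 (by omega)), if_pos (mem_range.2 (by omega))]
    have h1 := harm_range K hK
    have h2 : ∑ j ∈ range K, 1 / ((K - 1 - j : ℕ) : ℝ) = ∑ j ∈ range K, 1 / (j : ℝ) :=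
      sum_range_reflect (fun j : ℕ => 1 / (j : ℝ)) K
    rw [h2]
    nlinarith
  calc ∑ s ∈ R, ‖lsD N (ξ s - y)‖ ≤ ∑ s ∈ R, B (k s) := sum_le_sum hle
    _ = ∑ j ∈ R.image k, B j := by rw [sum_image hinj]
    _ ≤ ∑ j ∈ range K, B j := by
        apply sum_le_sum_of_subset_of_nonneg
        · intro j hj
          rw [mem_image] at hj
          obtain ⟨s, _, rfl⟩ := hj
          exact mem_range.2 (hkK s)
        · intro j _ _
          exact hB0 j
    _ ≤ _ := hsum

/-- the kernels at the Farey fractions of order `j` -/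
theorem farey (N j : ℕ) (α : ℝ) :
    ∑ f ∈ Icc 1 j, ∑ a ∈ (range f).filter (fun a => a.Coprime f), ‖lsD N ((a : ℝ) / f + α)‖ ≤
      2 * N + (j : ℝ) ^ 2 * (1 + 2 * Real.log j) := by
  rcases Nat.eq_zero_or_pos j with hj | hj
  · subst hj
    simp
  set R : Finset (Σ _ : ℕ, ℕ) :=
    (Icc 1 j).sigma (fun f => (range f).filter (fun a => a.Coprime f)) with hR
  set ξ : (Σ _ : ℕ, ℕ) → ℝ := fun r => (r.2 : ℝ) / r.1 with hξ
  have hsep : ∀ r ∈ R, ∀ s ∈ R, r ≠ s → lsSep (j ^ 2) (ξ s - ξ r) := by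
    rintro ⟨f, a⟩ hr ⟨f', a'⟩ hs hne
    simp only [hR, mem_sigma, mem_Icc, mem_filter, mem_range] at hr hs
    refine ls_sep_of_int j f f' hr.1.1 hs.1.1 hr.1.2 hs.1.2 a a' hr.2.1 hs.2.1 hr.2.2 hs.2.2 ?_
    rintro ⟨h1, h2⟩
    subst h1
    subst h2
    exact hne rfl
  have h := spaced R ξ (j ^ 2) N (Nat.one_le_pow _ _ hj) hsep (-α)
  rw [hR, sum_sigma] at h
  push_cast at h
  rw [Real.log_pow] at h
  push_cast at h
  simp only [hξ, sub_neg_eq_add] at h
  exact h

end Pool.Agent.H535.LB
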