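import Pool.Agent.H535.LB.Main
import Pool.Agent.H535.LB.Sqf

set_option autoImplicit false

/-!
# The sum over the squarefree moduli of the maximal error
-/

open Finset

namespace Pool.Agent.H535.LB

open Pool.Agent.Helper112 Pool.Agent.W110.HV

theorem Cls_nonempty (b : ℕ → ℕ) (q : ℕ) (hq : 1 ≤ q) : (Cls b q).Nonempty := by
  rw [← card_pos, card_Cls b q hq]
  exact Nat.totient_pos.2 hq

/-- a class with a large error -/
theorem exists_class (b : ℕ → ℕ) (f : ℕ → ℝ) (N q : ℕ) (hq : 1 ≤ q) (β t V : ℝ) (Q : ℝ)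
    (hqQ : (q : ℝ) ≤ Q) (ht : 0 ≤ t) (hV : Q * t ≤ V) (h : V ≤ ∑ a ∈ Cls b q, (cF f N q a - β) ^ 2) :
    ∃ a ∈ Cls b q, Real.sqrt t ≤ |cF f N q a - β| := by
  obtain ⟨a, ha, h1⟩ := exists_le_of_sum_le (f := fun _ => t) (g := fun a => (cF f N q a - β) ^ 2)
    (Cls_nonempty b q hq) (by
      rw [sum_const, card_Cls b q hq, nsmul_eq_mul]
      refine le_trans ?_ (hV.trans h)
      apply mul_le_mul_of_nonneg_right _ ht
      refine le_trans ?_ hqQ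
      exact_mod_cast Nat.totient_le q)
  refine ⟨a, ha, ?_⟩
  rw [← Real.sqrt_sq_eq_abs]
  exact Real.sqrt_le_sqrt h1

theorem sum_param (α δ : ℝ) (hδ : 0 < δ) (hα : 1 / 2 + 4 * δ = α) (hα1 : α < 1) : ∃ N0 : ℕ, ∀ N : ℕ,
    N0 ≤ N → 1 ≤ N ∧ (N : ℝ) ^ (1 / 2 + δ) ≤ ⌊(N : ℝ) ^ α / 2⌋₊ ∧ ⌊(N : ℝ) ^ α / 2⌋₊ ≤ N ∧
      2 * ⌊(N : ℝ) ^ α / 2⌋₊ ≤ ⌊(N : ℝ) ^ α⌋₊ ∧
      2 * δ * Real.log N ≤ Real.log ⌊(N : ℝ) ^ α / 2⌋₊ - (1 / 2 + δ) * Real.log N ∧
      (N : ℝ) ^ α / 4 ≤ ⌊(N : ℝ) ^ α / 2⌋₊ ∧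
      Real.sqrt (2 * (⌊(N : ℝ) ^ α / 2⌋₊ : ℝ)) ≤ (⌊(N : ℝ) ^ α / 2⌋₊ : ℝ) / 16 ∧
      16 ≤ (N : ℝ) ^ (δ / 32) := by
  obtain ⟨n1, h1⟩ := ev_const 100000 δ hδ
  obtain ⟨n2, h2⟩ := ev_const 16 (δ / 32) (by positivity)
  have hlogt : Filter.Tendsto (fun N : ℕ => Real.log N) Filter.atTop Filter.atTop :=
    Real.tendsto_log_atTop.comp tendsto_natCast_atTop_atTop
  obtain ⟨n3, h3⟩ := Filter.eventually_atTop.1
    (hlogt.eventually (Filter.eventually_ge_atTop (Real.log 4 / δ)))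
  refine ⟨max (max n1 n2) (max n3 1), fun N hN => ?_⟩
  have hn1 : n1 ≤ N := le_trans (le_trans (le_max_left _ _) (le_max_left _ _)) hN
  have hn2 : n2 ≤ N := le_trans (le_trans (le_max_right _ _) (le_max_left _ _)) hN
  have hn3 : n3 ≤ N := le_trans (le_trans (le_max_left _ _) (le_max_right _ _)) hN
  have hN1 : 1 ≤ N := le_trans (le_trans (le_max_right _ _) (le_max_right _ _)) hN
  have hN0 : (0 : ℝ) < N := by exact_mod_cast hN1
  have hN1r : (1 : ℝ) ≤ N := by exact_mod_cast hN1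
  have g1 := h1 N hn1
  have g2 := h2 N hn2
  have g3 := h3 N hn3
  have hα0 : 0 < α := by linarith
  set w : ℝ := (N : ℝ) ^ α with hw
  have hw1 : 100000 ≤ w := g1.trans (Real.rpow_le_rpow_of_exponent_le hN1r (by linarith))
  set K := ⌊w / 2⌋₊ with hK
  have hKle : (K : ℝ) ≤ w / 2 := Nat.floor_le (by linarith)
  have hKge : w / 4 ≤ K := by
    have : w / 2 < K + 1 := Nat.lt_floor_add_one _
    linarith
  have hwN : w ≤ N := by
    calc w ≤ (N : ℝ) ^ (1 : ℝ) := Real.rpow_le_rpow_of_exponent_le hN1r hα1.le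
      _ = N := Real.rpow_one _
  have hK0 : (0 : ℝ) < K := by linarith
  refine ⟨hN1, ?_, ?_, ?_, ?_, hKge, ?_, g2⟩
  · refine le_trans ?_ hKge
    have e : w = (N : ℝ) ^ (1 / 2 + δ) * (N : ℝ) ^ (3 * δ) := by
      rw [hw, ← Real.rpow_add hN0, ← hα]
      congr 1
      ring
    have h4 : (4 : ℝ) ≤ (N : ℝ) ^ (3 * δ) := by
      refine le_trans ?_ (Real.rpow_le_rpow_of_exponent_le hN1r (by linarith : δ ≤ 3 * δ))
      linarith
    rw [e, le_div_iff₀ (by norm_num)]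
    exact mul_le_mul_of_nonneg_left h4 (by positivity)
  · have : (K : ℝ) ≤ N := by linarith
    exact_mod_cast this
  · rw [Nat.le_floor_iff (by positivity)]
    push_cast
    linarith
  · have h4 : α * Real.log N - Real.log 4 ≤ Real.log K := by
      rw [← Real.log_rpow hN0, ← Real.log_div (by positivity) (by norm_num)]
      exact Real.log_le_log (by positivity) hKge
    have h5 : Real.log 4 ≤ δ * Real.log N := by
      rw [div_le_iff₀ hδ] at g3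
      linarith
    rw [← hα] at h4
    nlinarith
  · rw [Real.sqrt_le_left (by positivity)]
    have h6 : (25000 : ℝ) ≤ K := by linarith
    nlinarith

/-- the sum over the squarefree moduli -/
theorem eh_sum (α : ℝ) (hα : 1 / 2 < α) (hα1 : α < 1) : ∃ κ : ℝ, 0 < κ ∧ ∃ N0 : ℕ, ∀ N : ℕ, N0 ≤ N →
    ∀ (b : ℕ → ℕ) (f : ℕ → ℝ),
    (∀ n ∈ Icc 1 N, f n ≠ 0 → ∀ p : ℕ, p.Prime → (p : ℝ) ≤ (N : ℝ) ^ α → ¬ (p : ℤ) ∣ (n : ℤ) - b p) →
    (N : ℝ) * ∑ n ∈ Icc 1 N, f n ^ 2 ≤ (N : ℝ) ^ κ * (∑ n ∈ Icc 1 N, f n) ^ 2 →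
    ∀ β : ℕ → ℝ, ∃ l : ℕ → ℕ, (∀ d : ℕ, 1 ≤ d → l d ∈ Cls b d) ∧
      ∃ G : Finset ℕ, G ⊆ (Icc 1 ⌊(N : ℝ) ^ α⌋₊).filter Squarefree ∧
        (∀ d ∈ G, (N : ℝ) ^ α / 4 < d) ∧ (N : ℝ) ^ α / 32 ≤ G.card ∧
        ∀ d ∈ G, Real.sqrt (α - 1 / 2) / 2 * |∑ n ∈ Icc 1 N, f n| *
          (Real.sqrt (Real.log N) * (N : ℝ) ^ (-(1 + α) / 2)) ≤ |cF f N d (l d) - β d| := by
  classical
  set δ : ℝ := (α - 1 / 2) / 4 with hδdef
  have hδ : 0 < δ := by rw [hδdef]; linarith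
  have hαδ : 1 / 2 + 4 * δ = α := by rw [hδdef]; ring
  obtain ⟨n1, h1⟩ := main δ hδ
  obtain ⟨n2, h2⟩ := sum_param α δ hδ hαδ hα1
  refine ⟨δ / 32, by positivity, max n1 n2, fun N hN b f hf hnorm β => ?_⟩
  obtain ⟨hN1, g1, g2, g3, g4, g5, g6, g7⟩ := h2 N ((le_max_right _ _).trans hN)
  have hN0 : (0 : ℝ) < N := by exact_mod_cast hN1
  have hN1r : (1 : ℝ) ≤ N := by exact_mod_cast hN1
  set K := ⌊(N : ℝ) ^ α / 2⌋₊ with hK
  have hKle : 2 * (K : ℝ) ≤ (N : ℝ) ^ α := by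
    have : (K : ℝ) ≤ (N : ℝ) ^ α / 2 := Nat.floor_le (by positivity)
    linarith
  have hK0 : (0 : ℝ) < K := lt_of_lt_of_le (by positivity) g1
  have hK1 : 1 ≤ K := by exact_mod_cast hK0
  have hlogN : 0 ≤ Real.log N := Real.log_natCast_nonneg N
  obtain ⟨E, hE, hEc, hEq⟩ := h1 N ((le_max_left _ _).trans hN) K g1 g2 b f (by
    intro n hn hne p hp hpK
    apply hf n hn hne p hp
    have : (p : ℝ) ≤ 2 * K := by exact_mod_cast hpK
    linarith) hnorm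
  set S := ∑ n ∈ Icc 1 N, f n with hS
  set t : ℝ := 2 * δ * Real.log N * S ^ 2 / N / (2 * K) with ht
  have ht0 : 0 ≤ t := by positivity
  have hgood : ∀ q ∈ Ioc K (2 * K), q ∉ E → ∃ a ∈ Cls b q, Real.sqrt t ≤ |cF f N q a - β q| := by
    intro q hq hqE
    have hq' := mem_Ioc.1 hq
    apply exists_class b f N q (by omega) (β q) t (2 * δ * Real.log N * S ^ 2 / N) (2 * K)
      (by exact_mod_cast hq'.2) ht0
    · rw [ht]
      field_simp
      exact le_rfl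
    · refine le_trans ?_ (hEq q hq hqE (β q))
      gcongr
  have hex : ∀ q : ℕ, ∃ a : ℕ, (1 ≤ q → a ∈ Cls b q) ∧
      (q ∈ Ioc K (2 * K) → q ∉ E → Real.sqrt t ≤ |cF f N q a - β q|) := by
    intro q
    by_cases h : q ∈ Ioc K (2 * K) ∧ q ∉ E
    · obtain ⟨a, ha, h5⟩ := hgood q h.1 h.2
      exact ⟨a, fun _ => ha, fun _ _ => h5⟩
    · by_cases hq : 1 ≤ q
      · obtain ⟨a, ha⟩ := Cls_nonempty b q hq
        exact ⟨a, fun _ => ha, fun h5 h6 => absurd ⟨h5, h6⟩ h⟩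
      · exact ⟨0, fun h5 => absurd h5 hq, fun h5 h6 => absurd ⟨h5, h6⟩ h⟩
  choose l hl1 hl2 using hex
  refine ⟨l, hl1, ((Ioc K (2 * K)).filter Squarefree) \ E, ?_, ?_, ?_, ?_⟩
  · intro d hd
    rw [mem_sdiff, mem_filter, mem_Ioc] at hd
    rw [mem_filter, mem_Icc]
    exact ⟨⟨by omega, hd.1.1.2.trans g3⟩, hd.1.2⟩
  · intro d hd
    rw [mem_sdiff, mem_filter, mem_Ioc] at hd
    refine lt_of_le_of_lt g5 ?_
    exact_mod_cast hd.1.1.1
  · have h3 := sqf_count K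
    have h4 : (((Ioc K (2 * K)).filter Squarefree).card : ℝ) ≤
        (((Ioc K (2 * K)).filter Squarefree \ E).card : ℝ) + E.card := by
      have h5 : (Ioc K (2 * K)).filter Squarefree ⊆ ((Ioc K (2 * K)).filter Squarefree \ E) ∪ E := by
        intro x hx
        rw [mem_union, mem_sdiff]
        by_cases h6 : x ∈ E
        · exact Or.inr h6
        · exact Or.inl ⟨hx, h6⟩
      exact_mod_cast (card_le_card h5).trans (card_union_le _ _)
    have h6 : (E.card : ℝ) ≤ K / 16 := by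
      refine hEc.trans ?_
      apply div_le_div_of_nonneg_left hK0.le (by norm_num) g7
    linarith
  · intro d hd
    rw [mem_sdiff, mem_filter] at hd
    refine le_trans ?_ (hl2 d hd.1.1 hd.2)
    apply Real.le_sqrt_of_sq_le
    have e1 : (Real.sqrt (α - 1 / 2) / 2 * |S| * (Real.sqrt (Real.log N) * (N : ℝ) ^ (-(1 + α) / 2))) ^ 2 =
        (α - 1 / 2) / 4 * S ^ 2 * (Real.log N * ((N : ℝ) ^ (-(1 + α) / 2)) ^ 2) := by
      rw [mul_pow, mul_pow, mul_pow, div_pow, sq_abs, Real.sq_sqrt (by linarith), Real.sq_sqrt hlogN]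
      norm_num
    have e2 : ((N : ℝ) ^ (-(1 + α) / 2)) ^ 2 = 1 / (N * (N : ℝ) ^ α) := by
      rw [← Real.rpow_natCast, ← Real.rpow_mul hN0.le, eq_div_iff (by positivity)]
      have : (N : ℝ) * (N : ℝ) ^ α = (N : ℝ) ^ (1 + α) := by
        rw [Real.rpow_add hN0, Real.rpow_one]
      rw [this, ← Real.rpow_add hN0]
      have : -(1 + α) / 2 * ((2 : ℕ) : ℝ) + (1 + α) = 0 := by
        push_cast
        ring
      rw [this, Real.rpow_zero]
    rw [e1, e2, ht, hδdef]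
    have h7 : (α - 1 / 2) / 4 * S ^ 2 * (Real.log N * (1 / (N * (N : ℝ) ^ α))) =
        (2 * ((α - 1 / 2) / 4) * Real.log N * S ^ 2 / N) * (1 / (2 * (N : ℝ) ^ α)) := by
      field_simp
    rw [h7, div_eq_mul_one_div _ (2 * (K : ℝ))]
    have h0 : 0 ≤ α - 1 / 2 := by linarith
    apply mul_le_mul_of_nonneg_left _ (by positivity)
    apply div_le_div_of_nonneg_left (by norm_num) (by positivity)
    have : 0 < (N : ℝ) ^ α := by positivity
    linarith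

end Pool.Agent.H535.LB
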