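import Pool.Agent.H535.LB.Spaced

set_option autoImplicit false

/-!
# The test function: Ramanujan sums, shifted to the sieved classes
-/

open Finset

namespace Pool.Agent.H535.LB

open Pool.Agent.Helper112 Pool.Agent.W110.HV

/-- a system of shifts: `B r ≡ b p mod p` for the primes `p` dividing `r` -/
def Shift (b : ℕ → ℕ) (B : ℕ → ℤ) : Prop :=
  ∀ r : ℕ, r ≠ 0 → ∀ p ∈ r.primeFactors, (p : ℤ) ∣ B r - b p

theorem exists_shift (b : ℕ → ℕ) : ∃ B : ℕ → ℤ, Shift b B := by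
  have h : ∀ r : ℕ, ∃ c : ℤ, r ≠ 0 → ∀ p ∈ r.primeFactors, (p : ℤ) ∣ c - b p := by
    intro r
    have h := Nat.chineseRemainderOfFinset b id r.primeFactors
      (fun p hp => (Nat.prime_of_mem_primeFactors hp).ne_zero)
      (fun p hp q hq hpq => (Nat.coprime_primes (Nat.prime_of_mem_primeFactors hp)
        (Nat.prime_of_mem_primeFactors hq)).2 hpq)
    refine ⟨(h.1 : ℤ), fun _ p hp => ?_⟩
    have h2 := h.2 p hp
    have h3 := (Nat.modEq_iff_dvd.1 h2.symm)
    exact h3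
  choose B hB using h
  exact ⟨B, hB⟩

/-- the coefficients -/
noncomputable def cc (B : ℕ → ℤ) (r a : ℕ) : ℂ :=
  (((ArithmeticFunction.moebius r : ℤ) : ℂ) / (Nat.totient r : ℂ)) * ee (-((B r : ℝ) * ((a : ℝ) / r)))

/-- the test function -/
noncomputable def gg (B : ℕ → ℤ) (P R : ℕ) (n : ℤ) : ℂ :=
  ∑ r ∈ H343.Mod P R, ∑ a ∈ (range r).filter (fun a => a.Coprime r), cc B r a * ee (n * ((a : ℝ) / r))

theorem mem_Mod {P R r : ℕ} (h : r ∈ H343.Mod P R) : P < r ∧ r ≤ R ∧ Squarefree r := by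
  unfold H343.Mod at h
  rw [mem_filter, mem_Ioc] at h
  exact ⟨h.1.1, h.1.2, h.2⟩

theorem card_cop (r : ℕ) : ((range r).filter (fun a => a.Coprime r)).card = Nat.totient r := by
  rw [Nat.totient_eq_card_coprime]
  congr 1
  ext a
  rw [mem_filter, mem_filter, Nat.coprime_comm]

theorem norm_cc (B : ℕ → ℤ) (r a : ℕ) (hr : Squarefree r) : ‖cc B r a‖ = 1 / (Nat.totient r : ℝ) := by
  unfold cc
  rw [norm_mul, ls_norm_ee, mul_one, norm_div, Complex.norm_natCast]
  congr 1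
  rw [ArithmeticFunction.moebius_apply_of_squarefree hr]
  simp

theorem gg_sifted {b : ℕ → ℕ} {B : ℕ → ℤ} (hB : Shift b B) (P R : ℕ) (n : ℤ)
    (hn : ∀ p : ℕ, p.Prime → p ≤ R → ¬ (p : ℤ) ∣ n - b p) : gg B P R n = (H343.LL P R : ℂ) := by
  unfold gg H343.LL
  push_cast
  refine sum_congr rfl fun r hr => ?_
  obtain ⟨h1, h2, h3⟩ := mem_Mod hr
  have hr0 : r ≠ 0 := by omega
  have hcop : IsCoprime (n - B r) (r : ℤ) := by
    rw [Int.isCoprime_iff_gcd_eq_one]
    by_contra hcon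
    obtain ⟨p, hp, hpd⟩ := Nat.exists_prime_and_dvd hcon
    have hp1 : (p : ℤ) ∣ n - B r := by
      have : ((p : ℕ) : ℤ) ∣ ((Int.gcd (n - B r) r : ℕ) : ℤ) := by exact_mod_cast hpd
      exact this.trans (Int.gcd_dvd_left _ _)
    have hp2 : (p : ℤ) ∣ (r : ℤ) := by
      have : ((p : ℕ) : ℤ) ∣ ((Int.gcd (n - B r) r : ℕ) : ℤ) := by exact_mod_cast hpd
      exact this.trans (Int.gcd_dvd_right _ _)
    have hp3 : p ∣ r := by exact_mod_cast hp2
    have hp4 := hB r hr0 p (Nat.mem_primeFactors.2 ⟨hp, hp3, hr0⟩)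
    apply hn p hp ((Nat.le_of_dvd (by omega) hp3).trans h2)
    have : n - b p = (n - B r) + (B r - b p) := by ring
    rw [this]
    exact dvd_add hp1 hp4
  have e1 : ∀ a ∈ (range r).filter (fun a => a.Coprime r), cc B r a * ee (n * ((a : ℝ) / r)) =
      (((ArithmeticFunction.moebius r : ℤ) : ℂ) / (Nat.totient r : ℂ)) *
        ee (((n - B r : ℤ) : ℝ) * ((a : ℝ) / r)) := by
    intro a _
    unfold cc
    rw [mul_assoc, ← ls_ee_add]
    congr 2
    push_cast
    ring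
  rw [sum_congr rfl e1, ← mul_sum, raman_coprime r (by omega) _ hcop]
  have hmu : ((ArithmeticFunction.moebius r : ℤ) : ℂ) * ((ArithmeticFunction.moebius r : ℤ) : ℂ) = 1 := by
    have h4 : ArithmeticFunction.moebius r * ArithmeticFunction.moebius r = 1 := by
      rw [ArithmeticFunction.moebius_apply_of_squarefree h3, ← mul_pow]
      simp
    exact_mod_cast h4
  rw [div_mul_eq_mul_div, hmu]

theorem sum_int (N : ℕ) (F : ℤ → ℝ) : ∑ n ∈ Icc (1 : ℤ) N, F n = ∑ n ∈ Icc 1 N, F (n : ℤ) := by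
  symm
  apply sum_nbij (fun n : ℕ => (n : ℤ))
  · intro n hn
    rw [mem_Icc] at hn
    rw [mem_Icc]
    constructor
    · exact_mod_cast hn.1
    · exact_mod_cast hn.2
  · intro a _ b _ h
    simpa using h
  · intro n hn
    rw [mem_coe, mem_Icc] at hn
    refine ⟨n.toNat, ?_, ?_⟩
    · rw [mem_coe, mem_Icc]
      constructor
      · omega
      · omega
    · show ((n.toNat : ℕ) : ℤ) = n
      exact Int.toNat_of_nonneg (by omega)
  · intro _ _
    rfl

theorem sum_intC (N : ℕ) (F : ℤ → ℂ) : ∑ n ∈ Icc (1 : ℤ) N, F n = ∑ n ∈ Icc 1 N, F (n : ℤ) := by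
  symm
  apply sum_nbij (fun n : ℕ => (n : ℤ))
  · intro n hn
    rw [mem_Icc] at hn
    rw [mem_Icc]
    constructor
    · exact_mod_cast hn.1
    · exact_mod_cast hn.2
  · intro a _ b _ h
    simpa using h
  · intro n hn
    rw [mem_coe, mem_Icc] at hn
    refine ⟨n.toNat, ?_, ?_⟩
    · rw [mem_coe, mem_Icc]
      constructor
      · omega
      · omega
    · show ((n.toNat : ℕ) : ℤ) = n
      exact Int.toNat_of_nonneg (by omega)
  · intro _ _
    rfl

theorem gg_l2 (B : ℕ → ℤ) (P R N : ℕ) (hR : 1 ≤ R) :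
    ∑ n ∈ Icc (1 : ℤ) N, ‖gg B P R n‖ ^ 2 ≤ 6 * ((N : ℝ) + (R : ℝ) ^ 2) * H343.LL P R := by
  rw [sum_int N (fun n => ‖gg B P R n‖ ^ 2)]
  set S : Finset (Σ _ : ℕ, ℕ) :=
    (H343.Mod P R).sigma (fun f => (range f).filter (fun a => a.Coprime f)) with hS
  set ξ : (Σ _ : ℕ, ℕ) → ℝ := fun r => (r.2 : ℝ) / r.1 with hξ
  have hsep : ∀ r ∈ S, ∀ s ∈ S, r ≠ s → lsSep (R ^ 2) (ξ s - ξ r) := by
    rintro ⟨f, a⟩ hr ⟨f', a'⟩ hs hne
    rw [hS, mem_sigma, mem_filter, mem_range] at hr hs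
    dsimp only at hr hs
    obtain ⟨h1, h2, h3⟩ := mem_Mod hr.1
    obtain ⟨h1', h2', h3'⟩ := mem_Mod hs.1
    have g1 : 1 ≤ f := by omega
    have g1' : 1 ≤ f' := by omega
    refine ls_sep_of_int R f f' g1 g1' h2 h2' a a' hr.2.1 hs.2.1 hr.2.2 hs.2.2 ?_
    rintro ⟨h4, h5⟩
    subst h4
    subst h5
    exact hne rfl
  have h := ls_dual S ξ (R ^ 2) N (Nat.one_le_pow _ _ hR) hsep (fun r => cc B r.1 r.2)
  have e1 : ∀ n : ℕ, ∑ r ∈ S, cc B r.1 r.2 * ee (n * ξ r) = gg B P R (n : ℤ) := by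
    intro n
    rw [hS, sum_sigma]
    unfold gg
    refine sum_congr rfl fun r _ => sum_congr rfl fun a _ => ?_
    simp only [hξ, Int.cast_natCast]
  have e2 : ∑ r ∈ S, ‖cc B r.1 r.2‖ ^ 2 = H343.LL P R := by
    rw [hS, sum_sigma]
    unfold H343.LL
    refine sum_congr rfl fun r hr => ?_
    obtain ⟨h1, h2, h3⟩ := mem_Mod hr
    simp only [norm_cc B r _ h3]
    rw [sum_const, card_cop, nsmul_eq_mul]
    have : (Nat.totient r : ℝ) ≠ 0 := by
      have := Nat.totient_pos.2 (by omega : 0 < r)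
      positivity
    field_simp
  rw [e2] at h
  simp only [e1] at h
  push_cast at h
  exact h

theorem norm_ES_one (N : ℕ) (β : ℝ) : ‖∑ n ∈ Icc (1 : ℤ) N, ee (n * β)‖ = ‖lsD N β‖ := by
  rw [sum_intC]
  have : ∑ n ∈ Icc 1 N, ee ((((n : ℕ) : ℤ) : ℝ) * β) = ee β * lsD N β := by
    unfold lsD
    rw [mul_sum]
    have h1 : Icc 1 N = Ico 1 (N + 1) := by
      ext n
      rw [mem_Icc, mem_Ico]
      omega
    rw [h1, sum_Ico_eq_sum_range]
    refine sum_congr (by simp) fun j _ => ?_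
    rw [← ls_ee_add]
    congr 1
    push_cast
    ring
  rw [this, norm_mul, ls_norm_ee, one_mul]

theorem gg_sup (B : ℕ → ℤ) (P R N : ℕ) (D : ℝ) (hD0 : 0 ≤ D)
    (hD : ∀ r : ℕ, 1 ≤ r → r ≤ R → (r.divisors.card : ℝ) ≤ D) (α : ℝ) :
    ‖ES 1 N (gg B P R) α‖ ≤ D * (12 * ((N : ℝ) / (P + 1 : ℕ) + R) * (1 + 2 * Real.log R)) := by
  set W : ℕ → ℝ := fun f => if f ≤ R then
    ∑ a ∈ (range f).filter (fun a => a.Coprime f), ‖lsD N ((a : ℝ) / f + α)‖ else 0 with hW
  have hW0 : ∀ f, 0 ≤ W f := by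
    intro f
    simp only [hW]
    split_ifs
    · positivity
    · exact le_rfl
  have hlogR : 0 ≤ Real.log R := Real.log_natCast_nonneg R
  have hWs : ∀ j : ℕ, ∑ f ∈ Icc 1 j, W f ≤ 6 * ((N : ℝ) + (j : ℝ) ^ 2) * (1 + 2 * Real.log R) := by
    intro j
    set m := min j R with hm
    have h1 : ∑ f ∈ Icc 1 j, W f = ∑ f ∈ Icc 1 m, W f := by
      symm
      apply sum_subset
      · intro f hf
        rw [mem_Icc] at hf ⊢
        omega
      · intro f hf hf2
        rw [mem_Icc] at hf hf2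
        simp only [hW]
        rw [if_neg (by omega)]
    have h2 : ∑ f ∈ Icc 1 m, W f = ∑ f ∈ Icc 1 m, ∑ a ∈ (range f).filter (fun a => a.Coprime f),
        ‖lsD N ((a : ℝ) / f + α)‖ := by
      refine sum_congr rfl fun f hf => ?_
      rw [mem_Icc] at hf
      simp only [hW]
      rw [if_pos (by omega)]
    rw [h1, h2]
    refine (farey N m α).trans ?_
    have hmj : (m : ℝ) ≤ j := by exact_mod_cast min_le_left _ _
    have hmR : Real.log m ≤ Real.log R := by
      rcases Nat.eq_zero_or_pos m with h0 | h0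
      · rw [h0]
        simpa using hlogR
      · exact Real.log_le_log (by exact_mod_cast h0) (by exact_mod_cast min_le_right _ _)
    have hlm : 0 ≤ Real.log m := Real.log_natCast_nonneg m
    have h3 : (m : ℝ) ^ 2 * (1 + 2 * Real.log m) ≤ (j : ℝ) ^ 2 * (1 + 2 * Real.log R) := by
      gcongr
    have h4 : 0 ≤ (j : ℝ) ^ 2 * (1 + 2 * Real.log R) := by positivity
    have h5 : 0 ≤ (N : ℝ) * Real.log R := by positivity
    have h6 : (0 : ℝ) ≤ N := by positivity
    nlinarith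
  have h1 := abel_bound W hW0 (P + 1) R (by omega) N (1 + 2 * Real.log R) (by positivity)
    (by positivity) hWs
  have h2 : ES 1 N (gg B P R) α = ∑ r ∈ H343.Mod P R, ∑ a ∈ (range r).filter (fun a => a.Coprime r),
      cc B r a * ∑ n ∈ Icc (1 : ℤ) N, ee (n * ((a : ℝ) / r + α)) := by
    unfold ES gg
    simp_rw [sum_mul, mul_sum]
    rw [sum_comm]
    refine sum_congr rfl fun r _ => ?_
    rw [sum_comm]
    refine sum_congr rfl fun a _ => sum_congr rfl fun n _ => ?_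
    rw [mul_assoc, ← ls_ee_add]
    congr 2
    ring
  rw [h2]
  calc ‖∑ r ∈ H343.Mod P R, ∑ a ∈ (range r).filter (fun a => a.Coprime r),
        cc B r a * ∑ n ∈ Icc (1 : ℤ) N, ee (n * ((a : ℝ) / r + α))‖
      ≤ ∑ r ∈ H343.Mod P R, ∑ a ∈ (range r).filter (fun a => a.Coprime r),
        ‖cc B r a * ∑ n ∈ Icc (1 : ℤ) N, ee (n * ((a : ℝ) / r + α))‖ :=
        (norm_sum_le _ _).trans (sum_le_sum fun r _ => norm_sum_le _ _)
    _ ≤ ∑ r ∈ H343.Mod P R, D * (W r / r) := by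
        refine sum_le_sum fun r hr => ?_
        obtain ⟨h3, h4, h5⟩ := mem_Mod hr
        have hr0 : (0 : ℝ) < r := by exact_mod_cast (by omega : 0 < r)
        have ht : (0 : ℝ) < Nat.totient r := by exact_mod_cast Nat.totient_pos.2 (by omega : 0 < r)
        have h6 : 1 / (Nat.totient r : ℝ) ≤ D / r := by
          rw [div_le_div_iff₀ ht hr0, one_mul]
          exact totient_ge r (by omega) D (hD r (by omega) h4)
        have h7 : ∑ a ∈ (range r).filter (fun a => a.Coprime r),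
            ‖cc B r a * ∑ n ∈ Icc (1 : ℤ) N, ee (n * ((a : ℝ) / r + α))‖ =
            1 / (Nat.totient r : ℝ) * W r := by
          simp only [hW]
          rw [if_pos h4, mul_sum]
          refine sum_congr rfl fun a _ => ?_
          rw [norm_mul, norm_cc B r a h5, norm_ES_one]
        rw [h7]
        calc 1 / (Nat.totient r : ℝ) * W r ≤ D / r * W r := mul_le_mul_of_nonneg_right h6 (hW0 r)
          _ = _ := by ring
    _ = D * ∑ r ∈ H343.Mod P R, W r / r := by rw [mul_sum]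
    _ ≤ D * ∑ r ∈ Icc (P + 1) R, W r / r := by
        apply mul_le_mul_of_nonneg_left _ hD0
        apply sum_le_sum_of_subset_of_nonneg
        · intro r hr
          obtain ⟨h3, h4, h5⟩ := mem_Mod hr
          rw [mem_Icc]
          omega
        · intro r _ _
          exact div_nonneg (hW0 r) (by positivity)
    _ ≤ _ := mul_le_mul_of_nonneg_left h1 hD0

end Pool.Agent.H535.LB
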